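import Mathlib

/-!
Tridiagonal pairs and admissible maps.
-/

namespace Pool.Agent.Lib.MP_6ebba1_al

open Module

variable {K V : Type*} [Field K] [AddCommGroup V] [Module K V]

/-- A linear map is diagonalizable if its eigenspaces span the space. -/
def IsDiagonalizable (A : End K V) : Prop := ⨆ μ : K, A.eigenspace μ = ⊤

/-- `θ 0, …, θ d` lists the eigenvalues of `A` without repetition, so that
`A.eigenspace (θ 0), …, A.eigenspace (θ d)` is an ordering of the eigenspaces of `A`. -/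
def IsEigenOrdering {d : ℕ} (A : End K V) (θ : Fin (d + 1) → K) : Prop :=
  Function.Injective θ ∧ ∀ μ : K, A.HasEigenvalue μ ↔ μ ∈ Set.range θ

/-- The sum of the eigenspaces `A.eigenspace (θ j)` over the indices `j` with `a ≤ j ≤ b`
(zero if there is no such index). -/
def eigSum {d : ℕ} (A : End K V) (θ : Fin (d + 1) → K) (a b : ℤ) : Submodule K V :=
  ⨆ j : Fin (d + 1), ⨆ _ : a ≤ ((j : ℕ) : ℤ) ∧ ((j : ℕ) : ℤ) ≤ b, A.eigenspace (θ j)

/-- `A, As` is a tridiagonal pair, and `θ`, `θs` give orderings `V i = A.eigenspace (θ i)`,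
`V* i = As.eigenspace (θs i)` of the eigenspaces as in conditions (2) and (3). -/
structure IsTridiagonalPair {d : ℕ} (A As : End K V) (θ θs : Fin (d + 1) → K) : Prop where
  diag : IsDiagonalizable A
  diag_star : IsDiagonalizable As
  ordering : IsEigenOrdering A θ
  ordering_star : IsEigenOrdering As θs
  tri : ∀ i : Fin (d + 1),
    (A.eigenspace (θ i)).map As ≤ eigSum A θ (((i : ℕ) : ℤ) - 1) (((i : ℕ) : ℤ) + 1)
  tri_star : ∀ i : Fin (d + 1),
    (As.eigenspace (θs i)).map A ≤ eigSum As θs (((i : ℕ) : ℤ) - 1) (((i : ℕ) : ℤ) + 1)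
  irreducible : ∀ W : Submodule K V, W.map A ≤ W → W.map As ≤ W → W = ⊥ ∨ W = ⊤

/-- `S` is admissible: `S V i = V i` and
`S (V* 0 + ⋯ + V* i) = V* d + ⋯ + V* (d - i)` for `0 ≤ i ≤ d`. -/
def IsAdmissible {d : ℕ} (A As : End K V) (θ θs : Fin (d + 1) → K) (S : End K V) : Prop :=
  ∀ i : Fin (d + 1), (A.eigenspace (θ i)).map S = A.eigenspace (θ i) ∧
    (eigSum As θs 0 ((i : ℕ) : ℤ)).map S = eigSum As θs ((d : ℤ) - ((i : ℕ) : ℤ)) (d : ℤ)

end Pool.Agent.Lib.MP_6ebba1_al
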