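import Mathlib

/-!
Eigenspace projections and sums of eigenspaces over intervals, for a diagonalizable map with a
list of eigenvalues indexed by natural numbers.
-/

namespace Pool.Agent.Lib.MP_6ebba1_al

open Module Polynomial Finset

variable {K V : Type*} [Field K] [AddCommGroup V] [Module K V]

/-- `A` is diagonalizable with eigenvalues among the distinct scalars `θ 0, …, θ d`. -/
structure DiagData (A : End K V) (d : ℕ) (θ : ℕ → K) : Prop where
  inj : Set.InjOn θ (Finset.range (d + 1) : Set ℕ)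
  top : ⨆ g ∈ Finset.range (d + 1), A.eigenspace (θ g) = ⊤

/-- The sum of the eigenspaces with index in `[a, b)`. -/
def Vint (A : End K V) (θ : ℕ → K) (a b : ℕ) : Submodule K V :=
  ⨆ g ∈ Finset.Ico a b, A.eigenspace (θ g)

/-- The projection on the `h`-th eigenspace. -/
noncomputable def Ep (A : End K V) (θ : ℕ → K) (d h : ℕ) : End K V :=
  aeval A (Lagrange.basis (Finset.range (d + 1)) θ h)

/-- The product of the `X - θ g` over `g` in `[a, b)`. -/
noncomputable def tau (θ : ℕ → K) (a b : ℕ) : K[X] := Lagrange.nodal (Finset.Ico a b) θ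

variable {A : End K V} {d : ℕ} {θ : ℕ → K}

theorem aeval_eig {μ : K} {v : V} (hv : v ∈ A.eigenspace μ) (p : K[X]) :
    aeval A p v = p.eval μ • v :=
  End.aeval_apply_of_mem_apply_eq_smul (End.mem_eigenspace_iff.1 hv)

theorem eig_le_Vint {a b g : ℕ} (h1 : a ≤ g) (h2 : g < b) : A.eigenspace (θ g) ≤ Vint A θ a b :=
  le_iSup₂_of_le (f := fun g (_ : g ∈ Finset.Ico a b) => A.eigenspace (θ g)) g
    (Finset.mem_Ico.2 ⟨h1, h2⟩) le_rfl

theorem Vint_induction {a b : ℕ} {P : V → Prop} {v : V} (hv : v ∈ Vint A θ a b)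
    (h1 : ∀ g, a ≤ g → g < b → ∀ x ∈ A.eigenspace (θ g), P x) (h0 : P 0)
    (hadd : ∀ x y, P x → P y → P (x + y)) : P v := by
  unfold Vint at hv
  rw [iSup_subtype'] at hv
  refine Submodule.iSup_induction _ (motive := P) hv ?_ h0 hadd
  rintro ⟨g, hg⟩ x hx
  exact h1 g (Finset.mem_Ico.1 hg).1 (Finset.mem_Ico.1 hg).2 x hx

theorem Vint_mono {a b a' b' : ℕ} (h1 : a' ≤ a) (h2 : b ≤ b') : Vint A θ a b ≤ Vint A θ a' b' :=
  fun _ hv => Vint_induction hv
    (fun _ h3 h4 _ hx => eig_le_Vint (h1.trans h3) (h4.trans_le h2) hx)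
    (Submodule.zero_mem _) (fun _ _ => Submodule.add_mem _)

theorem Vint_eq_bot {a b : ℕ} (h : b ≤ a) : Vint A θ a b = ⊥ := by
  simp [Vint, Finset.Ico_eq_empty_of_le h]

theorem Vint_single (g : ℕ) : Vint A θ g (g + 1) = A.eigenspace (θ g) := by
  simp [Vint]

theorem DiagData.Vint_top (D : DiagData A d θ) : Vint A θ 0 (d + 1) = ⊤ := by
  rw [← D.top, Vint, Finset.range_eq_Ico]

theorem DiagData.induction (D : DiagData A d θ) {P : V → Prop}
    (h1 : ∀ g ≤ d, ∀ x ∈ A.eigenspace (θ g), P x) (h0 : P 0)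
    (hadd : ∀ x y, P x → P y → P (x + y)) (v : V) : P v :=
  Vint_induction (a := 0) (b := d + 1) (D.Vint_top ▸ Submodule.mem_top)
    (fun g _ hg => h1 g (Nat.lt_succ_iff.1 hg)) h0 hadd

theorem DiagData.Ep_self (D : DiagData A d θ) {h : ℕ} (hh : h ≤ d) {v : V}
    (hv : v ∈ A.eigenspace (θ h)) : Ep A θ d h v = v := by
  rw [Ep, aeval_eig hv, Lagrange.eval_basis_self D.inj (Finset.mem_range_succ_iff.2 hh), one_smul]

theorem Ep_ne {g h : ℕ} (hg : g ≤ d) (hne : h ≠ g) {v : V}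
    (hv : v ∈ A.eigenspace (θ g)) : Ep A θ d h v = 0 := by
  rw [Ep, aeval_eig hv, Lagrange.eval_basis_of_ne hne (Finset.mem_range_succ_iff.2 hg), zero_smul]

theorem DiagData.Ep_mem (D : DiagData A d θ) {h : ℕ} (hh : h ≤ d) (v : V) :
    Ep A θ d h v ∈ A.eigenspace (θ h) := by
  refine D.induction (P := fun v => Ep A θ d h v ∈ A.eigenspace (θ h)) ?_ (by simp) ?_ v
  · intro g hg x hx
    by_cases hgh : h = g
    · subst hgh
      rw [D.Ep_self hh hx]; exact hx
    · rw [Ep_ne hg hgh hx]; exact Submodule.zero_mem _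
  · intro x y hx hy
    rw [map_add]; exact Submodule.add_mem _ hx hy

theorem DiagData.sum_Ep (D : DiagData A d θ) (v : V) :
    ∑ h ∈ Finset.range (d + 1), Ep A θ d h v = v := by
  have h := Lagrange.sum_basis D.inj (Finset.nonempty_range_add_one (n := d))
  simp only [Ep]
  rw [← LinearMap.sum_apply, ← map_sum, h]
  simp

theorem aeval_comm (p q : K[X]) (v : V) : aeval A p (aeval A q v) = aeval A q (aeval A p v) := by
  rw [← End.mul_apply, ← End.mul_apply, ← map_mul, ← map_mul, mul_comm]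

theorem DiagData.Ep_aeval (D : DiagData A d θ) {h : ℕ} (hh : h ≤ d) (p : K[X]) (v : V) :
    Ep A θ d h (aeval A p v) = p.eval (θ h) • Ep A θ d h v := by
  rw [← aeval_eig (D.Ep_mem hh v), Ep, aeval_comm]

theorem DiagData.Ep_A (D : DiagData A d θ) {h : ℕ} (hh : h ≤ d) (v : V) :
    Ep A θ d h (A v) = θ h • Ep A θ d h v := by
  simpa using D.Ep_aeval hh X v

theorem DiagData.mem_Vint (D : DiagData A d θ) {a b : ℕ} (hb : b ≤ d + 1) (v : V) :
    v ∈ Vint A θ a b ↔ ∀ h ≤ d, ¬ (a ≤ h ∧ h < b) → Ep A θ d h v = 0 := by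
  constructor
  · intro hv h _ hab
    refine Vint_induction (P := fun v => Ep A θ d h v = 0) hv ?_ (by simp) ?_
    · intro g h1 h2 x hx
      exact Ep_ne (by omega) (by rintro rfl; exact hab ⟨h1, h2⟩) hx
    · intro x y hx hy
      rw [map_add, hx, hy, add_zero]
  · intro hv
    rw [← D.sum_Ep v]
    refine Submodule.sum_mem _ fun h hh => ?_
    have hh' := Finset.mem_range_succ_iff.1 hh
    by_cases hab : a ≤ h ∧ h < b
    · exact eig_le_Vint hab.1 hab.2 (D.Ep_mem hh' v)
    · rw [hv h hh' hab]; exact Submodule.zero_mem _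

theorem DiagData.eq_zero_of_Ep (D : DiagData A d θ) {v : V}
    (hv : ∀ h ≤ d, Ep A θ d h v = 0) : v = 0 := by
  rw [← D.sum_Ep v]
  exact Finset.sum_eq_zero fun h hh => hv h (Finset.mem_range_succ_iff.1 hh)

theorem eval_tau_mem {a b h : ℕ} (h1 : a ≤ h) (h2 : h < b) : (tau θ a b).eval (θ h) = 0 :=
  Lagrange.eval_nodal_at_node (Finset.mem_Ico.2 ⟨h1, h2⟩)

theorem DiagData.eval_tau_ne (D : DiagData A d θ) {a b h : ℕ} (hb : b ≤ d + 1) (hh : h ≤ d)
    (hab : ¬ (a ≤ h ∧ h < b)) : (tau θ a b).eval (θ h) ≠ 0 := by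
  apply Lagrange.eval_nodal_not_at_node
  intro i hi heq
  rw [Finset.mem_Ico] at hi
  have := D.inj (by simp; omega) (by simp; omega) heq
  subst this
  exact hab hi

theorem DiagData.mem_Vint_of_tau (D : DiagData A d θ) {a b : ℕ} (hb : b ≤ d + 1) {v : V}
    (hv : aeval A (tau θ a b) v = 0) : v ∈ Vint A θ a b := by
  rw [D.mem_Vint hb]
  intro h hh hab
  have h1 := D.Ep_aeval hh (tau θ a b) v
  rw [hv, map_zero] at h1
  exact (smul_eq_zero.1 h1.symm).resolve_left (D.eval_tau_ne hb hh hab)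

theorem DiagData.tau_map (D : DiagData A d θ) {a c : ℕ} (b : ℕ) (hc : c ≤ d + 1) {v : V}
    (hv : v ∈ Vint A θ a c) : aeval A (tau θ a b) v ∈ Vint A θ b c := by
  rw [D.mem_Vint hc] at hv ⊢
  intro h hh hbc
  rw [D.Ep_aeval hh]
  by_cases hac : a ≤ h ∧ h < c
  · rw [eval_tau_mem hac.1 (by omega), zero_smul]
  · rw [hv h hh hac, smul_zero]

theorem DiagData.lower (D : DiagData A d θ) {a b : ℕ} (hb : b ≤ d + 1) {v : V}
    (hv : v ∈ Vint A θ a b) : A v - θ a • v ∈ Vint A θ (a + 1) b := by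
  rw [D.mem_Vint hb] at hv ⊢
  intro h hh hab
  rw [map_sub, map_smul, D.Ep_A hh]
  by_cases hac : h = a
  · rw [hac, sub_self]
  · rw [hv h hh (by omega)]; simp

theorem DiagData.upper (D : DiagData A d θ) {a b : ℕ} (hb : b ≤ d) {v : V}
    (hv : v ∈ Vint A θ a (b + 1)) : A v - θ b • v ∈ Vint A θ a b := by
  rw [D.mem_Vint (by omega)] at hv ⊢
  intro h hh hab
  rw [map_sub, map_smul, D.Ep_A hh]
  by_cases hac : h = b
  · rw [hac, sub_self]
  · rw [hv h hh (by omega)]; simp

theorem natDegree_tau (a b : ℕ) : (tau θ a b).natDegree = b - a := by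
  simp [tau]

theorem monic_tau (a b : ℕ) : (tau θ a b).Monic := Lagrange.nodal_monic

theorem aeval_tau_succ_bot {a b : ℕ} (h : a < b) (v : V) :
    aeval A (tau θ a b) v = aeval A (tau θ (a + 1) b) (A v - θ a • v) := by
  have h1 : tau θ a b = tau θ (a + 1) b * (X - C (θ a)) := by
    rw [tau, tau, Lagrange.nodal_eq, Lagrange.nodal_eq, Finset.prod_eq_prod_Ico_succ_bot h,
      mul_comm]
  rw [h1, map_mul, End.mul_apply]
  simp [Algebra.algebraMap_eq_smul_one]

theorem aeval_tau_succ_top {a b : ℕ} (h : a ≤ b) (v : V) :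
    aeval A (tau θ a (b + 1)) v =
      A (aeval A (tau θ a b) v) - θ b • aeval A (tau θ a b) v := by
  have h1 : tau θ a (b + 1) = (X - C (θ b)) * tau θ a b := by
    rw [tau, tau, Lagrange.nodal_eq, Lagrange.nodal_eq, Finset.prod_Ico_succ_top h, mul_comm]
  rw [h1, map_mul, End.mul_apply]
  simp [Algebra.algebraMap_eq_smul_one]

theorem DiagData.Vint_split (D : DiagData A d θ) {a b c : ℕ} (hab : a ≤ b) (hbc : b ≤ c)
    (hc : c ≤ d + 1) :
    Vint A θ a b ⊔ Vint A θ b c = Vint A θ a c ∧ Vint A θ a b ⊓ Vint A θ b c = ⊥ := by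
  constructor
  · apply le_antisymm (sup_le (Vint_mono le_rfl hbc) (Vint_mono hab le_rfl))
    intro v hv
    refine Vint_induction hv ?_ (Submodule.zero_mem _) (fun _ _ => Submodule.add_mem _)
    intro g h1 h2 x hx
    by_cases hg : g < b
    · exact Submodule.mem_sup_left (eig_le_Vint h1 hg hx)
    · exact Submodule.mem_sup_right (eig_le_Vint (by omega) h2 hx)
  · rw [eq_bot_iff]
    rintro v ⟨h1, h2⟩
    rw [SetLike.mem_coe, D.mem_Vint (by omega)] at h1 h2
    refine D.eq_zero_of_Ep fun h hh => ?_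
    by_cases hg : h < b
    · exact h2 h hh (by omega)
    · exact h1 h hh (by omega)

theorem DiagData.finrank_Vint_add [FiniteDimensional K V] (D : DiagData A d θ) {a b c : ℕ}
    (hab : a ≤ b) (hbc : b ≤ c) (hc : c ≤ d + 1) :
    finrank K (Vint A θ a c) = finrank K (Vint A θ a b) + finrank K (Vint A θ b c) := by
  obtain ⟨h1, h2⟩ := D.Vint_split hab hbc hc
  have h := Submodule.finrank_sup_add_finrank_inf_eq (Vint A θ a b) (Vint A θ b c)
  rw [h1, h2, finrank_bot] at h
  omega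

theorem DiagData.Ep_eq_basis (D : DiagData A d θ) {a b h : ℕ} (hb : b ≤ d + 1) (h1 : a ≤ h)
    (h2 : h < b) {v : V} (hv : v ∈ Vint A θ a b) :
    Ep A θ d h v = aeval A (Lagrange.basis (Finset.Ico a b) θ h) v := by
  have hinj : Set.InjOn θ (Finset.Ico a b : Set ℕ) :=
    D.inj.mono (by intro x hx; simp at hx ⊢; omega)
  refine Vint_induction (P := fun v => Ep A θ d h v =
    aeval A (Lagrange.basis (Finset.Ico a b) θ h) v) hv ?_ (by simp) ?_
  · intro g h3 h4 x hx
    rw [aeval_eig hx]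
    by_cases hgh : h = g
    · subst hgh
      rw [D.Ep_self (by omega) hx,
        Lagrange.eval_basis_self hinj (Finset.mem_Ico.2 ⟨h1, h2⟩), one_smul]
    · rw [Ep_ne (by omega) hgh hx,
        Lagrange.eval_basis_of_ne hgh (Finset.mem_Ico.2 ⟨h3, h4⟩), zero_smul]
  · intro x y hx hy
    rw [map_add, map_add, hx, hy]

theorem DiagData.commute_of_map (D : DiagData A d θ) {S : End K V}
    (hS : ∀ g ≤ d, ∀ x ∈ A.eigenspace (θ g), S x ∈ A.eigenspace (θ g)) : S * A = A * S := by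
  ext v
  refine D.induction (P := fun v => (S * A) v = (A * S) v) ?_ (by simp) ?_ v
  · intro g hg x hx
    rw [End.mul_apply, End.mul_apply, End.mem_eigenspace_iff.1 hx, map_smul,
      End.mem_eigenspace_iff.1 (hS g hg x hx)]
  · intro x y hx hy
    rw [map_add, map_add, hx, hy]

end Pool.Agent.Lib.MP_6ebba1_al
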