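import Pool.Agent.Lib.MP_6ebba1_al.Defs

/-!
A tridiagonal pair of shape (1,2,1) with an admissible map that has a Jordan block.
-/

namespace Pool.Agent.Lib.MP_6ebba1_al

open Module

variable (K : Type*) [Field K]

/-- The first map of the pair. -/
def exA : End K (Fin 4 → K) := Matrix.toLin' !![1, 0, 0, 0; 0, 0, 0, 0; 0, 0, 0, 0; 0, 0, 0, -1]

/-- The second map of the pair. -/
def exAs : End K (Fin 4 → K) := Matrix.toLin' !![5, -2, 3, 0; 8, -5, 0, 3; 3, 0, 5, -2; 0, 3, 8, -5]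

/-- The admissible map. -/
def exS : End K (Fin 4 → K) := Matrix.toLin' !![1, 0, 0, 0; 0, -16, 20, 0; 0, -5, 4, 0; 0, 0, 0, -4]

variable {K}

theorem exA_apply (v : Fin 4 → K) : exA K v = ![v 0, 0, 0, -v 3] := by
  ext i
  fin_cases i <;> simp [exA, Matrix.mulVec, dotProduct, Fin.sum_univ_four]

theorem exAs_apply (v : Fin 4 → K) : exAs K v =
    ![5 * v 0 - 2 * v 1 + 3 * v 2, 8 * v 0 - 5 * v 1 + 3 * v 3, 3 * v 0 + 5 * v 2 - 2 * v 3,
      3 * v 1 + 8 * v 2 - 5 * v 3] := by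
  ext i
  fin_cases i <;> simp [exAs, Matrix.mulVec, dotProduct, Fin.sum_univ_four] <;> ring

theorem exS_apply (v : Fin 4 → K) : exS K v =
    ![v 0, -16 * v 1 + 20 * v 2, -5 * v 1 + 4 * v 2, -4 * v 3] := by
  ext i
  fin_cases i <;> simp [exS, Matrix.mulVec, dotProduct, Fin.sum_univ_four]

omit [Field K] in
theorem vec4_ext {v w : Fin 4 → K} :
    v = w ↔ v 0 = w 0 ∧ v 1 = w 1 ∧ v 2 = w 2 ∧ v 3 = w 3 := by
  constructor
  · rintro rfl; exact ⟨rfl, rfl, rfl, rfl⟩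
  · rintro ⟨h0, h1, h2, h3⟩
    ext i
    fin_cases i <;> assumption

theorem mem_eigA (μ : K) (v : Fin 4 → K) : v ∈ (exA K).eigenspace μ ↔
    v 0 = μ * v 0 ∧ 0 = μ * v 1 ∧ 0 = μ * v 2 ∧ -v 3 = μ * v 3 := by
  rw [End.mem_eigenspace_iff, exA_apply, vec4_ext]
  simp

theorem mem_eigAs (μ : K) (v : Fin 4 → K) : v ∈ (exAs K).eigenspace μ ↔
    5 * v 0 - 2 * v 1 + 3 * v 2 = μ * v 0 ∧ 8 * v 0 - 5 * v 1 + 3 * v 3 = μ * v 1 ∧
      3 * v 0 + 5 * v 2 - 2 * v 3 = μ * v 2 ∧ 3 * v 1 + 8 * v 2 - 5 * v 3 = μ * v 3 := by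
  rw [End.mem_eigenspace_iff, exAs_apply, vec4_ext]
  simp

theorem mem_eigS (μ : K) (v : Fin 4 → K) : v ∈ (exS K).eigenspace μ ↔
    v 0 = μ * v 0 ∧ -16 * v 1 + 20 * v 2 = μ * v 1 ∧ -5 * v 1 + 4 * v 2 = μ * v 2 ∧
      -4 * v 3 = μ * v 3 := by
  rw [End.mem_eigenspace_iff, exS_apply, vec4_ext]
  simp

theorem eigSum_three {V : Type*} [AddCommGroup V] [Module K V] (A : End K V) (θ : Fin 3 → K)
    (a b : ℤ) : eigSum (d := 2) A θ a b =
      (if a ≤ 0 ∧ 0 ≤ b then A.eigenspace (θ 0) else ⊥) ⊔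
      (if a ≤ 1 ∧ 1 ≤ b then A.eigenspace (θ 1) else ⊥) ⊔
      (if a ≤ 2 ∧ 2 ≤ b then A.eigenspace (θ 2) else ⊥) := by
  unfold eigSum
  simp only [iSup_eq_if]
  apply le_antisymm
  · apply iSup_le
    intro j
    fin_cases j
    · exact le_sup_of_le_left (le_sup_of_le_left le_rfl)
    · exact le_sup_of_le_left (le_sup_of_le_right le_rfl)
    · exact le_sup_of_le_right le_rfl
  · refine sup_le (sup_le ?_ ?_) ?_
    · exact le_iSup_of_le 0 le_rfl
    · exact le_iSup_of_le 1 le_rfl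
    · exact le_iSup_of_le 2 le_rfl

variable [CharZero K]

theorem memA1 (v : Fin 4 → K) : v ∈ (exA K).eigenspace 1 ↔ v 1 = 0 ∧ v 2 = 0 ∧ v 3 = 0 := by
  rw [mem_eigA]; constructor <;> intro h <;> grind

theorem memA0 (v : Fin 4 → K) : v ∈ (exA K).eigenspace 0 ↔ v 0 = 0 ∧ v 3 = 0 := by
  rw [mem_eigA]; constructor <;> intro h <;> grind

theorem memA2 (v : Fin 4 → K) : v ∈ (exA K).eigenspace (-1) ↔ v 0 = 0 ∧ v 1 = 0 ∧ v 2 = 0 := by
  rw [mem_eigA]; constructor <;> intro h <;> grind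

theorem memAs1 (v : Fin 4 → K) :
    v ∈ (exAs K).eigenspace 6 ↔ v 1 = v 0 ∧ v 2 = v 0 ∧ v 3 = v 0 := by
  rw [mem_eigAs]; constructor <;> intro h <;> grind

theorem memAs0 (v : Fin 4 → K) : v ∈ (exAs K).eigenspace 0 ↔
    4 * v 0 - v 1 + 4 * v 2 - v 3 = 0 ∧ v 0 - v 1 - v 2 + v 3 = 0 := by
  rw [mem_eigAs]; constructor <;> intro h <;> grind

theorem memAs2 (v : Fin 4 → K) :
    v ∈ (exAs K).eigenspace (-6) ↔ v 1 = 4 * v 0 ∧ v 2 = -v 0 ∧ v 3 = -4 * v 0 := by
  rw [mem_eigAs]; constructor <;> intro h <;> grind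

theorem memA10 (v : Fin 4 → K) :
    v ∈ (exA K).eigenspace 1 ⊔ (exA K).eigenspace 0 ↔ v 3 = 0 := by
  rw [Submodule.mem_sup]
  constructor
  · rintro ⟨x, hx, y, hy, rfl⟩
    rw [memA1] at hx; rw [memA0] at hy
    simp [hx.2.2, hy.2]
  · intro h
    refine ⟨![v 0, 0, 0, 0], (memA1 _).2 (by simp), ![0, v 1, v 2, 0], (memA0 _).2 (by simp), ?_⟩
    rw [vec4_ext]; simp [h]

theorem memA02 (v : Fin 4 → K) :
    v ∈ (exA K).eigenspace 0 ⊔ (exA K).eigenspace (-1) ↔ v 0 = 0 := by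
  rw [Submodule.mem_sup]
  constructor
  · rintro ⟨x, hx, y, hy, rfl⟩
    rw [memA0] at hx; rw [memA2] at hy
    simp [hx.1, hy.1]
  · intro h
    refine ⟨![0, v 1, v 2, 0], (memA0 _).2 (by simp), ![0, 0, 0, v 3], (memA2 _).2 (by simp), ?_⟩
    rw [vec4_ext]; simp [h]

theorem topA : (exA K).eigenspace 1 ⊔ (exA K).eigenspace 0 ⊔ (exA K).eigenspace (-1) = ⊤ := by
  rw [eq_top_iff]
  intro v _
  rw [Submodule.mem_sup]
  refine ⟨![v 0, v 1, v 2, 0], by rw [memA10]; simp, ![0, 0, 0, v 3], (memA2 _).2 (by simp), ?_⟩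
  rw [vec4_ext]; simp

theorem memAs10 (v : Fin 4 → K) :
    v ∈ (exAs K).eigenspace 6 ⊔ (exAs K).eigenspace 0 ↔ v 0 - v 1 - v 2 + v 3 = 0 := by
  rw [Submodule.mem_sup]
  constructor
  · rintro ⟨x, hx, y, hy, rfl⟩
    rw [memAs1] at hx; rw [memAs0] at hy
    simp only [Pi.add_apply]
    grind
  · intro h
    obtain ⟨c, hc⟩ : ∃ c : K, c = (4 * v 0 - v 1 + 4 * v 2 - v 3) / 6 := ⟨_, rfl⟩
    refine ⟨![c, c, c, c], (memAs1 _).2 (by simp), ![v 0 - c, v 1 - c, v 2 - c, v 3 - c], ?_, ?_⟩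
    · rw [memAs0]; simp; grind
    · rw [vec4_ext]; simp

theorem memAs02 (v : Fin 4 → K) :
    v ∈ (exAs K).eigenspace 0 ⊔ (exAs K).eigenspace (-6) ↔
      4 * v 0 - v 1 + 4 * v 2 - v 3 = 0 := by
  rw [Submodule.mem_sup]
  constructor
  · rintro ⟨x, hx, y, hy, rfl⟩
    rw [memAs0] at hx; rw [memAs2] at hy
    simp only [Pi.add_apply]
    grind
  · intro h
    obtain ⟨c, hc⟩ : ∃ c : K, c = -(v 0 - v 1 - v 2 + v 3) / 6 := ⟨_, rfl⟩
    refine ⟨![v 0 - c, v 1 - 4 * c, v 2 + c, v 3 + 4 * c], ?_, ![c, 4 * c, -c, -4 * c],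
      (memAs2 _).2 (by simp), ?_⟩
    · rw [memAs0]; simp; grind
    · rw [vec4_ext]; simp

theorem topAs :
    (exAs K).eigenspace 6 ⊔ (exAs K).eigenspace 0 ⊔ (exAs K).eigenspace (-6) = ⊤ := by
  rw [eq_top_iff]
  intro v _
  rw [Submodule.mem_sup]
  obtain ⟨c, hc⟩ : ∃ c : K, c = -(v 0 - v 1 - v 2 + v 3) / 6 := ⟨_, rfl⟩
  refine ⟨![v 0 - c, v 1 - 4 * c, v 2 + c, v 3 + 4 * c], ?_, ![c, 4 * c, -c, -4 * c],
    (memAs2 _).2 (by simp), ?_⟩
  · rw [memAs10]; simp; grind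
  · rw [vec4_ext]; simp

theorem ex_orderingA : IsEigenOrdering (d := 2) (exA K) ![1, 0, -1] := by
  refine ⟨?_, fun μ => ?_⟩
  · intro i j h
    fin_cases i <;> fin_cases j <;> simp at h ⊢ <;> grind
  · rw [End.hasEigenvalue_iff, Submodule.ne_bot_iff]
    constructor
    · rintro ⟨v, hv, hv0⟩
      rw [mem_eigA] at hv
      by_contra hμ
      have h1 : μ ≠ 1 := fun h => hμ ⟨0, h.symm⟩
      have h2 : μ ≠ 0 := fun h => hμ ⟨1, h.symm⟩
      have h3 : μ ≠ -1 := fun h => hμ ⟨2, h.symm⟩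
      apply hv0
      rw [vec4_ext]
      simp only [Pi.zero_apply]
      grind
    · rintro ⟨i, rfl⟩
      fin_cases i
      · exact ⟨![1, 0, 0, 0], (memA1 _).2 (by simp), by simp⟩
      · exact ⟨![0, 1, 0, 0], (memA0 _).2 (by simp), by simp⟩
      · exact ⟨![0, 0, 0, 1], (memA2 _).2 (by simp), by simp⟩

theorem ex_orderingAs : IsEigenOrdering (d := 2) (exAs K) ![6, 0, -6] := by
  refine ⟨?_, fun μ => ?_⟩
  · intro i j h
    fin_cases i <;> fin_cases j <;> simp at h ⊢ <;> grind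
  · rw [End.hasEigenvalue_iff, Submodule.ne_bot_iff]
    constructor
    · rintro ⟨v, hv, hv0⟩
      rw [mem_eigAs] at hv
      obtain ⟨e0, e1, e2, e3⟩ := hv
      by_contra hμ
      have h1 : μ - 6 ≠ 0 := fun h => hμ ⟨0, (sub_eq_zero.1 h).symm⟩
      have h2 : μ ≠ 0 := fun h => hμ ⟨1, h.symm⟩
      have h3 : μ + 6 ≠ 0 := fun h => hμ ⟨2, (eq_neg_of_add_eq_zero_left h).symm⟩
      have a1 : 4 * v 0 - v 1 + 4 * v 2 - v 3 = 0 :=
        (mul_eq_zero.1 (show (μ - 6) * (4 * v 0 - v 1 + 4 * v 2 - v 3) = 0 by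
          linear_combination -4 * e0 + e1 - 4 * e2 + e3)).resolve_left h1
      have a2 : -v 0 + v 1 - v 2 + v 3 = 0 :=
        (mul_eq_zero.1 (show μ * (-v 0 + v 1 - v 2 + v 3) = 0 by
          linear_combination e0 - e1 + e2 - e3)).resolve_left h2
      have a3 : 4 * v 0 - v 1 - 4 * v 2 + v 3 = 0 :=
        (mul_eq_zero.1 (show μ * (4 * v 0 - v 1 - 4 * v 2 + v 3) = 0 by
          linear_combination -4 * e0 + e1 + 4 * e2 - e3)).resolve_left h2
      have a4 : v 0 - v 1 - v 2 + v 3 = 0 :=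
        (mul_eq_zero.1 (show (μ + 6) * (v 0 - v 1 - v 2 + v 3) = 0 by
          linear_combination -e0 + e1 + e2 - e3)).resolve_left h3
      apply hv0
      rw [vec4_ext]
      simp only [Pi.zero_apply]
      grind
    · rintro ⟨i, rfl⟩
      fin_cases i
      · exact ⟨![1, 1, 1, 1], (memAs1 _).2 (by simp), by simp⟩
      · exact ⟨![1, 1, -1, -1], (memAs0 _).2 (by simp; norm_num), by simp⟩
      · exact ⟨![1, 4, -1, -4], (memAs2 _).2 (by simp), by simp⟩

theorem ex_irreducible (W : Submodule K (Fin 4 → K)) (hA : W.map (exA K) ≤ W)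
    (hAs : W.map (exAs K) ≤ W) : W = ⊥ ∨ W = ⊤ := by
  have hA' : ∀ v ∈ W, exA K v ∈ W := fun v hv => hA (Submodule.mem_map_of_mem hv)
  have hAs' : ∀ v ∈ W, exAs K v ∈ W := fun v hv => hAs (Submodule.mem_map_of_mem hv)
  have key1 : ∀ v ∈ W, v 0 ≠ 0 → (![1, 0, 0, 0] : Fin 4 → K) ∈ W := by
    intro v hv h0
    have h := W.smul_mem (2 * v 0)⁻¹ (W.add_mem (hA' _ (hA' _ hv)) (hA' _ hv))
    convert h using 1
    rw [vec4_ext]
    simp [exA_apply]
    field_simp
    ring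
  have key2 : (![1, 0, 0, 0] : Fin 4 → K) ∈ W → W = ⊤ := by
    intro h1
    have h2 : (![0, 8, 3, 0] : Fin 4 → K) ∈ W := by
      have h := W.sub_mem (hAs' _ h1) (W.smul_mem 5 h1)
      convert h using 1
      rw [vec4_ext]; simp [exAs_apply]
    have h3 : (![-7, -40, 15, 48] : Fin 4 → K) ∈ W := by
      have h := hAs' _ h2
      convert h using 1
      rw [vec4_ext]; simp [exAs_apply]; norm_num
    have h4 : (![-7, 0, 0, -48] : Fin 4 → K) ∈ W := by
      have h := hA' _ h3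
      convert h using 1
      rw [vec4_ext]; simp [exA_apply]
    rw [eq_top_iff]
    intro v _
    have h := W.add_mem (W.add_mem (W.add_mem
      (W.smul_mem (v 0 - 7 * (v 3 / 48) + 14 * ((8 * v 2 - 3 * v 1) / 240)) h1)
      (W.smul_mem ((15 * v 1 + 40 * v 2) / 240) h2))
      (W.smul_mem ((8 * v 2 - 3 * v 1) / 240) h3))
      (W.smul_mem ((8 * v 2 - 3 * v 1) / 240 - v 3 / 48) h4)
    convert h using 1
    rw [vec4_ext]; simp
    refine ⟨?_, ?_, ?_, ?_⟩ <;> ring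
  by_cases h0 : ∃ v ∈ W, v 0 ≠ 0
  · obtain ⟨v, hv, h0⟩ := h0
    exact Or.inr (key2 (key1 v hv h0))
  · push Not at h0
    left
    rw [eq_bot_iff]
    intro v hv
    have a0 := h0 v hv
    have a1 := h0 _ (hAs' _ hv)
    have a2 := h0 _ (hAs' _ (hAs' _ hv))
    have a3 := h0 _ (hAs' _ (hAs' _ (hA' _ hv)))
    have a4 := h0 _ (hAs' _ (hAs' _ (hA' _ (hAs' _ hv))))
    simp [exAs_apply, exA_apply] at a1 a2 a3 a4
    rw [Submodule.mem_bot, vec4_ext]
    simp only [Pi.zero_apply]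
    grind

theorem ex_isTridiagonalPair :
    IsTridiagonalPair (d := 2) (exA K) (exAs K) ![1, 0, -1] ![6, 0, -6] where
  diag := by
    unfold IsDiagonalizable
    rw [eq_top_iff, ← topA]
    exact sup_le (sup_le (le_iSup _ 1) (le_iSup _ 0)) (le_iSup _ (-1))
  diag_star := by
    unfold IsDiagonalizable
    rw [eq_top_iff, ← topAs]
    exact sup_le (sup_le (le_iSup _ 6) (le_iSup _ 0)) (le_iSup _ (-6))
  ordering := ex_orderingA
  ordering_star := ex_orderingAs
  tri := by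
    intro i
    rw [eigSum_three]
    rintro _ ⟨v, hv, rfl⟩
    fin_cases i
    · have hv' := (memA1 v).1 hv
      have : exAs K v ∈ (exA K).eigenspace 1 ⊔ (exA K).eigenspace 0 := by
        rw [memA10, exAs_apply]; simp [hv']
      simpa using this
    · have : exAs K v ∈ (exA K).eigenspace 1 ⊔ (exA K).eigenspace 0 ⊔
          (exA K).eigenspace (-1) := by rw [topA]; trivial
      simpa using this
    · have hv' := (memA2 v).1 hv
      have : exAs K v ∈ (exA K).eigenspace 0 ⊔ (exA K).eigenspace (-1) := by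
        rw [memA02, exAs_apply]; simp [hv']
      simpa using this
  tri_star := by
    intro i
    rw [eigSum_three]
    rintro _ ⟨v, hv, rfl⟩
    fin_cases i
    · have hv' := (memAs1 v).1 hv
      have : exA K v ∈ (exAs K).eigenspace 6 ⊔ (exAs K).eigenspace 0 := by
        rw [memAs10, exA_apply]; simp; grind
      simpa using this
    · have : exA K v ∈ (exAs K).eigenspace 6 ⊔ (exAs K).eigenspace 0 ⊔
          (exAs K).eigenspace (-6) := by rw [topAs]; trivial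
      simpa using this
    · have hv' := (memAs2 v).1 hv
      have : exA K v ∈ (exAs K).eigenspace 0 ⊔ (exAs K).eigenspace (-6) := by
        rw [memAs02, exA_apply]; simp; grind
      simpa using this
  irreducible := ex_irreducible

theorem exS_surj (w : Fin 4 → K) :
    exS K ![w 0, (4 * w 1 - 20 * w 2) / 36, (5 * w 1 - 16 * w 2) / 36, -w 3 / 4] = w := by
  rw [exS_apply, vec4_ext]; simp
  refine ⟨?_, ?_, ?_⟩ <;> ring

theorem map_exS_eq {W W' : Submodule K (Fin 4 → K)} (h : ∀ v, v ∈ W ↔ exS K v ∈ W') :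
    W.map (exS K) = W' := by
  apply le_antisymm
  · rintro _ ⟨v, hv, rfl⟩
    exact (h v).1 hv
  · intro w hw
    exact ⟨_, (h _).2 (by rw [exS_surj]; exact hw), exS_surj w⟩

theorem ex_isAdmissible :
    IsAdmissible (d := 2) (exA K) (exAs K) ![1, 0, -1] ![6, 0, -6] (exS K) := by
  intro i
  rw [eigSum_three, eigSum_three]
  fin_cases i
  · refine ⟨map_exS_eq fun v => ?_, ?_⟩
    · change v ∈ (exA K).eigenspace 1 ↔ _ ∈ (exA K).eigenspace 1
      rw [memA1, memA1, exS_apply]; simp only [Matrix.cons_val]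
      constructor <;> intro h <;> grind
    · have : ((exAs K).eigenspace 6).map (exS K) = (exAs K).eigenspace (-6) := by
        refine map_exS_eq fun v => ?_
        rw [memAs1, memAs2, exS_apply]; simp only [Matrix.cons_val]
        constructor <;> intro h <;> grind
      simpa using this
  · refine ⟨map_exS_eq fun v => ?_, ?_⟩
    · change v ∈ (exA K).eigenspace 0 ↔ _ ∈ (exA K).eigenspace 0
      rw [memA0, memA0, exS_apply]; simp only [Matrix.cons_val]
      constructor <;> intro h <;> grind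
    · have : ((exAs K).eigenspace 6 ⊔ (exAs K).eigenspace 0).map (exS K) =
          (exAs K).eigenspace 0 ⊔ (exAs K).eigenspace (-6) := by
        refine map_exS_eq fun v => ?_
        rw [memAs10, memAs02, exS_apply]; simp only [Matrix.cons_val]
        constructor <;> intro h <;> grind
      simpa using this
  · refine ⟨map_exS_eq fun v => ?_, ?_⟩
    · change v ∈ (exA K).eigenspace (-1) ↔ _ ∈ (exA K).eigenspace (-1)
      rw [memA2, memA2, exS_apply]; simp only [Matrix.cons_val]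
      constructor <;> intro h <;> grind
    · have : ((exAs K).eigenspace 6 ⊔ (exAs K).eigenspace 0 ⊔
          (exAs K).eigenspace (-6)).map (exS K) =
          (exAs K).eigenspace 6 ⊔ (exAs K).eigenspace 0 ⊔ (exAs K).eigenspace (-6) := by
        refine map_exS_eq fun v => ?_
        rw [topAs]; simp
      simpa using this

theorem ex_not_diagonalizable : ¬ IsDiagonalizable (exS K) := by
  intro h
  let φ : (Fin 4 → K) →ₗ[K] K := LinearMap.proj 1 - (2 : K) • LinearMap.proj 2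
  have hle : (⊤ : Submodule K (Fin 4 → K)) ≤ LinearMap.ker φ := by
    rw [← h]
    apply iSup_le
    intro μ v hv
    rw [mem_eigS] at hv
    obtain ⟨-, h1, h2, -⟩ := hv
    rw [LinearMap.mem_ker]
    change v 1 - 2 * v 2 = 0
    by_cases hμ : μ + 6 = 0
    · have : μ = -6 := eq_neg_of_add_eq_zero_left hμ
      subst this
      grind
    · exact (mul_eq_zero.1 (show (μ + 6) * (v 1 - 2 * v 2) = 0 by
        linear_combination -h1 + 2 * h2)).resolve_left hμ
  have := hle (Submodule.mem_top (x := ![0, 1, 0, 0]))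
  rw [LinearMap.mem_ker] at this
  change (1 : K) - 2 * 0 = 0 at this
  simp at this

end Pool.Agent.Lib.MP_6ebba1_al
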