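import Pool.Agent.Lib.MP_6ebba1_al.Example

/-!
A family of tridiagonal pairs of shape (1,2,1) over any field with an element outside
`{0, 1, -1}`, with an admissible map that has a Jordan block.
-/

namespace Pool.Agent.Lib.MP_6ebba1_al

open Module

variable {K : Type*} [Field K]

theorem not_diag_of_chain {V : Type*} [AddCommGroup V] [Module K V] {S : End K V} {v : V}
    (h1 : S v ≠ v) (h2 : S (S v - v) = S v - v) : ¬ IsDiagonalizable S := by
  intro h
  have h3 : ∀ x ∈ ⨆ μ : K, S.eigenspace μ, S x - x ∈ ⨆ μ : K, ⨆ _ : μ ≠ 1, S.eigenspace μ := by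
    intro x hx
    induction hx using Submodule.iSup_induction' with
    | mem μ x hx =>
      have hx' := End.mem_eigenspace_iff.1 hx
      by_cases hμ : μ = 1
      · rw [hx', hμ, one_smul, sub_self]
        exact zero_mem _
      · refine Submodule.mem_iSup_of_mem μ (Submodule.mem_iSup_of_mem hμ ?_)
        rw [hx']
        exact sub_mem (Submodule.smul_mem _ _ hx) hx
    | zero => simp
    | add x y _ _ hx hy =>
      rw [map_add, add_sub_add_comm]
      exact add_mem hx hy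
  have h4 := h3 v (by rw [h]; trivial)
  have h5 : S v - v ∈ S.eigenspace 1 := End.mem_eigenspace_iff.2 (by rw [h2, one_smul])
  exact h1 (sub_eq_zero.1 (Submodule.disjoint_def.1 (S.eigenspaces_iSupIndep 1) _ h5 h4))

theorem map_eq_of {V : Type*} [AddCommGroup V] [Module K V] {S : End K V}
    (hS : Function.Surjective S) {W W' : Submodule K V} (h : ∀ v, v ∈ W ↔ S v ∈ W') :
    W.map S = W' := by
  apply le_antisymm
  · rintro _ ⟨v, hv, rfl⟩
    exact (h v).1 hv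
  · intro w hw
    obtain ⟨v, rfl⟩ := hS w
    exact ⟨v, (h v).2 hw, rfl⟩

/-- The first linear form. -/
def fa (z : K) (v : Fin 4 → K) : K :=
  -(1 + z) * v 0 + (1 - z) * v 1 + (1 - z ^ 2) * v 2 + (1 + z) * v 3

/-- The second linear form. -/
def fb (z : K) (v : Fin 4 → K) : K :=
  -(1 + z) * v 0 + (1 - z ^ 2) * v 1 + (1 + 2 * z) * (1 - z) * v 2 + z * (1 + z) * v 3

/-- The first map of the pair. -/
def fA (z : K) : End K (Fin 4 → K) where
  toFun v := ![z * v 0, 0, 0, v 3]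
  map_add' v w := by rw [vec4_ext]; simp [mul_add]
  map_smul' c v := by rw [vec4_ext]; simp [mul_left_comm]

/-- The second map of the pair. -/
def fAs (z : K) : End K (Fin 4 → K) where
  toFun v := ![z * fa z v - fb z v, z * fa z v, -fb z v, z * fa z v - z * fb z v]
  map_add' v w := by
    rw [vec4_ext]; simp [fa, fb]; refine ⟨?_, ?_, ?_, ?_⟩ <;> ring
  map_smul' c v := by
    rw [vec4_ext]; simp [fa, fb]; refine ⟨?_, ?_, ?_, ?_⟩ <;> ring

/-- The admissible map. -/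
def fS (z : K) : End K (Fin 4 → K) where
  toFun v := ![v 0, -v 2, v 1 + 2 * v 2, z * v 3]
  map_add' v w := by rw [vec4_ext]; simp; refine ⟨?_, ?_, ?_⟩ <;> ring
  map_smul' c v := by rw [vec4_ext]; simp; refine ⟨?_, ?_⟩ <;> ring

variable {z : K}

theorem fA_apply (v : Fin 4 → K) : fA z v = ![z * v 0, 0, 0, v 3] := rfl
theorem fAs_apply (v : Fin 4 → K) :
    fAs z v = ![z * fa z v - fb z v, z * fa z v, -fb z v, z * fa z v - z * fb z v] := rfl
theorem fS_apply (v : Fin 4 → K) : fS z v = ![v 0, -v 2, v 1 + 2 * v 2, z * v 3] := rfl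

theorem mem_fA (μ : K) (v : Fin 4 → K) : v ∈ (fA z).eigenspace μ ↔
    z * v 0 = μ * v 0 ∧ 0 = μ * v 1 ∧ 0 = μ * v 2 ∧ v 3 = μ * v 3 := by
  rw [End.mem_eigenspace_iff, fA_apply, vec4_ext]
  simp

theorem mem_fAs (μ : K) (v : Fin 4 → K) : v ∈ (fAs z).eigenspace μ ↔
    z * fa z v - fb z v = μ * v 0 ∧ z * fa z v = μ * v 1 ∧ -fb z v = μ * v 2 ∧
      z * fa z v - z * fb z v = μ * v 3 := by
  rw [End.mem_eigenspace_iff, fAs_apply, vec4_ext]
  simp

theorem fAs_forms {μ : K} {v : Fin 4 → K} (h : v ∈ (fAs z).eigenspace μ) :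
    (z * (1 - z) - μ) * fa z v = 0 ∧ (z ^ 2 * (1 - z) - μ) * fb z v = 0 := by
  obtain ⟨e0, e1, e2, e3⟩ := (mem_fAs μ v).1 h
  constructor
  · have : μ * fa z v = -(1 + z) * (μ * v 0) + (1 - z) * (μ * v 1) + (1 - z ^ 2) * (μ * v 2)
        + (1 + z) * (μ * v 3) := by rw [fa]; ring
    rw [← e0, ← e1, ← e2, ← e3] at this
    linear_combination -this
  · have : μ * fb z v = -(1 + z) * (μ * v 0) + (1 - z ^ 2) * (μ * v 1)
        + (1 + 2 * z) * (1 - z) * (μ * v 2) + z * (1 + z) * (μ * v 3) := by rw [fb]; ring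
    rw [← e0, ← e1, ← e2, ← e3] at this
    linear_combination -this

variable (h0 : z ≠ 0) (h1 : 1 - z ≠ 0) (h2 : 1 + z ≠ 0)
include h0 h1

theorem fA0 (v : Fin 4 → K) : v ∈ (fA z).eigenspace z ↔ v 1 = 0 ∧ v 2 = 0 ∧ v 3 = 0 := by
  rw [mem_fA]; constructor <;> intro h <;> grind

omit h0 in
theorem fA2 (v : Fin 4 → K) : v ∈ (fA z).eigenspace 1 ↔ v 0 = 0 ∧ v 1 = 0 ∧ v 2 = 0 := by
  rw [mem_fA]; constructor <;> intro h <;> grind

omit h1 in
theorem fA1 (v : Fin 4 → K) : v ∈ (fA z).eigenspace 0 ↔ v 0 = 0 ∧ v 3 = 0 := by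
  rw [mem_fA]; constructor <;> intro h <;> grind

theorem fAs0 (v : Fin 4 → K) :
    v ∈ (fAs z).eigenspace (z * (1 - z)) ↔ v 1 = v 0 ∧ v 2 = 0 ∧ v 3 = v 0 := by
  constructor
  · intro h
    have hb : fb z v = 0 := (mul_eq_zero.1 (fAs_forms h).2).resolve_left (by
      rw [show z ^ 2 * (1 - z) - z * (1 - z) = -(z * (1 - z) * (1 - z)) by ring]
      simp [h0, h1])
    rw [mem_fAs, hb] at h
    grind
  · rintro ⟨a1, a2, a3⟩
    rw [mem_fAs, fa, fb, a1, a2, a3]
    refine ⟨?_, ?_, ?_, ?_⟩ <;> ring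

omit h1 in
theorem fAs1 (v : Fin 4 → K) : v ∈ (fAs z).eigenspace 0 ↔ fa z v = 0 ∧ fb z v = 0 := by
  rw [mem_fAs]; constructor <;> intro h <;> grind

theorem fAs2 (v : Fin 4 → K) :
    v ∈ (fAs z).eigenspace (z ^ 2 * (1 - z)) ↔ v 1 = 0 ∧ v 2 = v 0 ∧ v 3 = z * v 0 := by
  constructor
  · intro h
    have ha : fa z v = 0 := (mul_eq_zero.1 (fAs_forms h).1).resolve_left (by
      rw [show z * (1 - z) - z ^ 2 * (1 - z) = z * (1 - z) * (1 - z) by ring]
      simp [h0, h1])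
    rw [mem_fAs, ha] at h
    have h3 : z ^ 2 * (1 - z) ≠ 0 := mul_ne_zero (pow_ne_zero _ h0) h1
    obtain ⟨e0, e1, e2, e3⟩ := h
    refine ⟨mul_left_cancel₀ h3 ?_, mul_left_cancel₀ h3 ?_, mul_left_cancel₀ h3 ?_⟩
    · linear_combination -e1
    · linear_combination e0 - e2
    · linear_combination z * e0 - e3
  · rintro ⟨a1, a2, a3⟩
    rw [mem_fAs, fa, fb, a1, a2, a3]
    refine ⟨?_, ?_, ?_, ?_⟩ <;> ring

theorem fA01 (v : Fin 4 → K) : v ∈ (fA z).eigenspace z ⊔ (fA z).eigenspace 0 ↔ v 3 = 0 := by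
  rw [Submodule.mem_sup]
  constructor
  · rintro ⟨x, hx, y, hy, rfl⟩
    rw [fA0 h0 h1] at hx; rw [fA1 h0] at hy
    simp [hx.2.2, hy.2]
  · intro h
    refine ⟨![v 0, 0, 0, 0], (fA0 h0 h1 _).2 (by simp), ![0, v 1, v 2, 0], (fA1 h0 _).2 (by simp), ?_⟩
    rw [vec4_ext]; simp [h]

theorem fA12 (v : Fin 4 → K) : v ∈ (fA z).eigenspace 0 ⊔ (fA z).eigenspace 1 ↔ v 0 = 0 := by
  rw [Submodule.mem_sup]
  constructor
  · rintro ⟨x, hx, y, hy, rfl⟩
    rw [fA1 h0] at hx; rw [fA2 h1] at hy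
    simp [hx.1, hy.1]
  · intro h
    refine ⟨![0, v 1, v 2, 0], (fA1 h0 _).2 (by simp), ![0, 0, 0, v 3], (fA2 h1 _).2 (by simp), ?_⟩
    rw [vec4_ext]; simp [h]

theorem ftopA : (fA z).eigenspace z ⊔ (fA z).eigenspace 0 ⊔ (fA z).eigenspace 1 = ⊤ := by
  rw [eq_top_iff]
  intro v _
  rw [Submodule.mem_sup]
  refine ⟨![v 0, v 1, v 2, 0], by rw [fA01 h0 h1]; simp, ![0, 0, 0, v 3],
    (fA2 h1 _).2 (by simp), ?_⟩
  rw [vec4_ext]; simp

theorem fAs01 (v : Fin 4 → K) :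
    v ∈ (fAs z).eigenspace (z * (1 - z)) ⊔ (fAs z).eigenspace 0 ↔ fb z v = 0 := by
  rw [Submodule.mem_sup]
  constructor
  · rintro ⟨x, hx, y, hy, rfl⟩
    rw [fAs0 h0 h1] at hx; rw [fAs1 h0] at hy
    have := hy.2
    simp only [fb, Pi.add_apply, hx.1, hx.2.1, hx.2.2] at this ⊢
    linear_combination this
  · intro h
    obtain ⟨c, hc⟩ : ∃ c : K, c * (1 - z) = fa z v := ⟨fa z v / (1 - z), by field_simp⟩
    refine ⟨![c, c, 0, c], (fAs0 h0 h1 _).2 (by simp), ![v 0 - c, v 1 - c, v 2, v 3 - c], ?_, ?_⟩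
    · rw [fAs1 h0]
      simp only [fa, fb, Matrix.cons_val] at h hc ⊢
      exact ⟨by linear_combination -hc, by linear_combination h⟩
    · rw [vec4_ext]; simp

theorem fAs_split (v : Fin 4 → K) : ∃ c : K, fa z ![v 0 - c, v 1, v 2 - c, v 3 - z * c] = fa z v ∧
    fb z ![v 0 - c, v 1, v 2 - c, v 3 - z * c] = 0 := by
  obtain ⟨c, hc⟩ : ∃ c : K, c * (z ^ 2 * (1 - z)) = -fb z v :=
    ⟨-fb z v / (z ^ 2 * (1 - z)), by field_simp⟩
  refine ⟨c, ?_, ?_⟩ <;> simp only [fa, fb, Matrix.cons_val] at hc ⊢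
  · ring
  · linear_combination hc

theorem fAs12 (v : Fin 4 → K) :
    v ∈ (fAs z).eigenspace 0 ⊔ (fAs z).eigenspace (z ^ 2 * (1 - z)) ↔ fa z v = 0 := by
  rw [Submodule.mem_sup]
  constructor
  · rintro ⟨x, hx, y, hy, rfl⟩
    rw [fAs1 h0] at hx; rw [fAs2 h0 h1] at hy
    have := hx.1
    simp only [fa, Pi.add_apply, hy.1, hy.2.1, hy.2.2] at this ⊢
    linear_combination this
  · intro h
    obtain ⟨c, c1, c2⟩ := fAs_split h0 h1 v
    refine ⟨_, (fAs1 h0 _).2 ⟨c1.trans h, c2⟩, ![c, 0, c, z * c], (fAs2 h0 h1 _).2 (by simp), ?_⟩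
    rw [vec4_ext]; simp

theorem ftopAs : (fAs z).eigenspace (z * (1 - z)) ⊔ (fAs z).eigenspace 0 ⊔
    (fAs z).eigenspace (z ^ 2 * (1 - z)) = ⊤ := by
  rw [eq_top_iff]
  intro v _
  rw [Submodule.mem_sup]
  obtain ⟨c, -, c2⟩ := fAs_split h0 h1 v
  refine ⟨_, (fAs01 h0 h1 _).2 c2, ![c, 0, c, z * c], (fAs2 h0 h1 _).2 (by simp), ?_⟩
  rw [vec4_ext]; simp

theorem f_orderingA : IsEigenOrdering (d := 2) (fA z) ![z, 0, 1] := by
  refine ⟨?_, fun μ => ?_⟩
  · intro i j h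
    fin_cases i <;> fin_cases j <;> simp at h ⊢ <;> grind
  · rw [End.hasEigenvalue_iff, Submodule.ne_bot_iff]
    constructor
    · rintro ⟨v, hv, hv0⟩
      rw [mem_fA] at hv
      by_contra hμ
      have a1 : μ ≠ z := fun h => hμ ⟨0, h.symm⟩
      have a2 : μ ≠ 0 := fun h => hμ ⟨1, h.symm⟩
      have a3 : μ ≠ 1 := fun h => hμ ⟨2, h.symm⟩
      apply hv0
      rw [vec4_ext]
      simp only [Pi.zero_apply]
      grind
    · rintro ⟨i, rfl⟩
      fin_cases i
      · exact ⟨![1, 0, 0, 0], (fA0 h0 h1 _).2 (by simp), by simp⟩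
      · exact ⟨![0, 1, 0, 0], (fA1 h0 _).2 (by simp), by simp⟩
      · exact ⟨![0, 0, 0, 1], (fA2 h1 _).2 (by simp), by simp⟩

theorem f_orderingAs :
    IsEigenOrdering (d := 2) (fAs z) ![z * (1 - z), 0, z ^ 2 * (1 - z)] := by
  refine ⟨?_, fun μ => ?_⟩
  · intro i j h
    fin_cases i <;> fin_cases j <;> simp [h0, h1] at h ⊢ <;> grind
  · rw [End.hasEigenvalue_iff, Submodule.ne_bot_iff]
    constructor
    · rintro ⟨v, hv, hv0⟩
      by_contra hμ
      have a1 : z * (1 - z) - μ ≠ 0 := fun h => hμ ⟨0, sub_eq_zero.1 h⟩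
      have a2 : μ ≠ 0 := fun h => hμ ⟨1, h.symm⟩
      have a3 : z ^ 2 * (1 - z) - μ ≠ 0 := fun h => hμ ⟨2, sub_eq_zero.1 h⟩
      have b1 := (mul_eq_zero.1 (fAs_forms hv).1).resolve_left a1
      have b2 := (mul_eq_zero.1 (fAs_forms hv).2).resolve_left a3
      rw [mem_fAs, b1, b2] at hv
      apply hv0
      rw [vec4_ext]
      simp only [Pi.zero_apply]
      grind
    · rintro ⟨i, rfl⟩
      fin_cases i
      · exact ⟨![1, 1, 0, 1], (fAs0 h0 h1 _).2 (by simp), by simp⟩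
      · refine ⟨![1, 1 + z, 0, z], (fAs1 h0 _).2 ?_, by simp⟩
        simp only [fa, fb, Matrix.cons_val]
        constructor <;> ring
      · exact ⟨![1, 0, 1, z], (fAs2 h0 h1 _).2 (by simp), by simp⟩

include h2 in
theorem f_irreducible (W : Submodule K (Fin 4 → K)) (hA : W.map (fA z) ≤ W)
    (hAs : W.map (fAs z) ≤ W) : W = ⊥ ∨ W = ⊤ := by
  have hA' : ∀ v ∈ W, fA z v ∈ W := fun v hv => hA (Submodule.mem_map_of_mem hv)
  have hAs' : ∀ v ∈ W, fAs z v ∈ W := fun v hv => hAs (Submodule.mem_map_of_mem hv)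
  have sm : ∀ (c : K) (v w : Fin 4 → K), c ≠ 0 → w ∈ W → w = c • v → v ∈ W := by
    rintro c v w hc hw rfl
    exact (W.smul_mem_iff hc).1 hw
  by_cases h : ∃ v ∈ W, v 0 ≠ 0
  · obtain ⟨v, hv, a0⟩ := h
    have e0 : (![1, 0, 0, 0] : Fin 4 → K) ∈ W := by
      refine sm (z * (1 - z) * v 0) _ _ (by simp [h0, h1, a0])
        (W.sub_mem (hA' _ hv) (hA' _ (hA' _ hv))) ?_
      rw [vec4_ext]; simp [fA_apply]; ring
    have y1 : (![1 - z, -z, 1, 0] : Fin 4 → K) ∈ W := by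
      refine sm (1 + z) _ _ h2 (hAs' _ e0) ?_
      rw [vec4_ext]; refine ⟨?_, ?_, ?_, ?_⟩ <;> simp [fAs_apply, fa, fb] <;> ring
    have y2 : (![0, -1, 1, z - 1] : Fin 4 → K) ∈ W := by
      refine sm (z ^ 2 * (1 - z)) _ _ (by simp [h0, h1]) (hAs' _ y1) ?_
      rw [vec4_ext]; simp [fAs_apply, fa, fb]; refine ⟨?_, ?_, ?_, ?_⟩ <;> ring
    have u : (![1, 1, 0, 1] : Fin 4 → K) ∈ W := by
      refine sm (1 - z) _ _ h1 (W.sub_mem y1 y2) ?_
      rw [vec4_ext]; simp; ring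
    have e3 : (![0, 0, 0, 1] : Fin 4 → K) ∈ W := by
      refine sm 1 _ _ one_ne_zero (W.sub_mem (hA' _ u) (W.smul_mem z e0)) ?_
      rw [vec4_ext]; simp [fA_apply]
    right
    rw [eq_top_iff]
    intro x _
    have := W.add_mem (W.add_mem (W.add_mem (W.smul_mem (x 0 - x 1 - x 2) e0)
      (W.smul_mem (x 1 + x 2) u)) (W.smul_mem (x 2) y2)) (W.smul_mem (x 3 - x 1 - z * x 2) e3)
    convert this using 1
    rw [vec4_ext]; refine ⟨?_, ?_, ?_, ?_⟩ <;> simp <;> ring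
  · push Not at h
    have key : ∀ v ∈ W, fa z v = 0 ∧ fb z v = 0 := by
      intro v hv
      have a1 := h _ (hAs' _ hv)
      have a2 := h _ (hAs' _ (hAs' _ hv))
      rw [fAs_apply] at a1 a2
      simp only [Matrix.cons_val] at a1 a2
      rw [fa, fb, fAs_apply] at a2
      simp only [Matrix.cons_val] at a2
      have a3 : fa z v = 0 := by
        refine mul_left_cancel₀ (mul_ne_zero (pow_ne_zero 2 h0) (pow_ne_zero 2 h1)) ?_
        linear_combination a2 - z ^ 2 * (1 - z) * a1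
      exact ⟨a3, by linear_combination z * a3 - a1⟩
    left
    rw [eq_bot_iff]
    intro v hv
    have a0 := h v hv
    obtain ⟨a1, a2⟩ := key v hv
    have a3 := (key _ (hA' _ hv)).1
    simp only [fa, fb, fA_apply, Matrix.cons_val] at a1 a2 a3
    have b3 : v 3 = 0 := mul_left_cancel₀ h2 (by linear_combination a3 + (1 + z) * z * a0)
    have b2 : v 2 = 0 := by
      refine mul_left_cancel₀ (mul_ne_zero (pow_ne_zero 2 h0) h1) ?_
      rw [a0, b3] at a1 a2
      linear_combination (1 + z) * a1 - a2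
    have b1 : v 1 = 0 := by
      refine mul_left_cancel₀ h1 ?_
      rw [a0, b3, b2] at a1
      linear_combination a1
    rw [Submodule.mem_bot, vec4_ext]
    exact ⟨a0, b1, b2, b3⟩

include h2 in
theorem f_isTridiagonalPair :
    IsTridiagonalPair (d := 2) (fA z) (fAs z) ![z, 0, 1] ![z * (1 - z), 0, z ^ 2 * (1 - z)] where
  diag := by
    unfold IsDiagonalizable
    rw [eq_top_iff, ← ftopA h0 h1]
    exact sup_le (sup_le (le_iSup _ z) (le_iSup _ 0)) (le_iSup _ 1)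
  diag_star := by
    unfold IsDiagonalizable
    rw [eq_top_iff, ← ftopAs h0 h1]
    exact sup_le (sup_le (le_iSup _ _) (le_iSup _ 0)) (le_iSup _ _)
  ordering := f_orderingA h0 h1
  ordering_star := f_orderingAs h0 h1
  tri := by
    intro i
    rw [eigSum_three]
    rintro _ ⟨v, hv, rfl⟩
    fin_cases i
    · have hv' := (fA0 h0 h1 v).1 hv
      have : fAs z v ∈ (fA z).eigenspace z ⊔ (fA z).eigenspace 0 := by
        rw [fA01 h0 h1, fAs_apply]; simp [hv', fa, fb]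
      simpa using this
    · have : fAs z v ∈ (fA z).eigenspace z ⊔ (fA z).eigenspace 0 ⊔
          (fA z).eigenspace 1 := by rw [ftopA h0 h1]; trivial
      simpa using this
    · have hv' := (fA2 h1 v).1 hv
      have : fAs z v ∈ (fA z).eigenspace 0 ⊔ (fA z).eigenspace 1 := by
        rw [fA12 h0 h1, fAs_apply]; simp [hv', fa, fb]; ring
      simpa using this
  tri_star := by
    intro i
    rw [eigSum_three]
    rintro _ ⟨v, hv, rfl⟩
    fin_cases i
    · have hv' := (fAs0 h0 h1 v).1 hv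
      have : fA z v ∈ (fAs z).eigenspace (z * (1 - z)) ⊔ (fAs z).eigenspace 0 := by
        rw [fAs01 h0 h1, fA_apply]; simp [fb, hv']; ring
      simpa using this
    · have : fA z v ∈ (fAs z).eigenspace (z * (1 - z)) ⊔ (fAs z).eigenspace 0 ⊔
          (fAs z).eigenspace (z ^ 2 * (1 - z)) := by rw [ftopAs h0 h1]; trivial
      simpa using this
    · have hv' := (fAs2 h0 h1 v).1 hv
      have : fA z v ∈ (fAs z).eigenspace 0 ⊔ (fAs z).eigenspace (z ^ 2 * (1 - z)) := by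
        rw [fAs12 h0 h1, fA_apply]; simp [fa, hv']; ring
      simpa using this
  irreducible := f_irreducible h0 h1 h2

omit h1 in
theorem fS_surj : Function.Surjective (fS z) := fun w =>
  ⟨![w 0, w 2 + 2 * w 1, -w 1, w 3 / z], by
    rw [fS_apply, vec4_ext]; simp; field_simp⟩

theorem f_isAdmissible : IsAdmissible (d := 2) (fA z) (fAs z) ![z, 0, 1]
    ![z * (1 - z), 0, z ^ 2 * (1 - z)] (fS z) := by
  intro i
  rw [eigSum_three, eigSum_three]
  fin_cases i
  · refine ⟨map_eq_of (fS_surj h0) fun v => ?_, ?_⟩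
    · change v ∈ (fA z).eigenspace z ↔ _ ∈ (fA z).eigenspace z
      rw [fA0 h0 h1, fA0 h0 h1, fS_apply]; simp only [Matrix.cons_val]
      constructor <;> intro h <;> grind
    · have : ((fAs z).eigenspace (z * (1 - z))).map (fS z) =
          (fAs z).eigenspace (z ^ 2 * (1 - z)) := by
        refine map_eq_of (fS_surj h0) fun v => ?_
        rw [fAs0 h0 h1, fAs2 h0 h1, fS_apply]; simp only [Matrix.cons_val]
        constructor <;> intro h <;> grind
      simpa using this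
  · refine ⟨map_eq_of (fS_surj h0) fun v => ?_, ?_⟩
    · change v ∈ (fA z).eigenspace 0 ↔ _ ∈ (fA z).eigenspace 0
      rw [fA1 h0, fA1 h0, fS_apply]; simp only [Matrix.cons_val]
      constructor <;> intro h <;> grind
    · have : ((fAs z).eigenspace (z * (1 - z)) ⊔ (fAs z).eigenspace 0).map (fS z) =
          (fAs z).eigenspace 0 ⊔ (fAs z).eigenspace (z ^ 2 * (1 - z)) := by
        refine map_eq_of (fS_surj h0) fun v => ?_
        rw [fAs01 h0 h1, fAs12 h0 h1, fS_apply]; simp only [fa, fb, Matrix.cons_val]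
        constructor <;> intro h <;> linear_combination h
      simpa using this
  · refine ⟨map_eq_of (fS_surj h0) fun v => ?_, ?_⟩
    · change v ∈ (fA z).eigenspace 1 ↔ _ ∈ (fA z).eigenspace 1
      rw [fA2 h1, fA2 h1, fS_apply]; simp only [Matrix.cons_val]
      constructor <;> intro h <;> grind
    · have : ((fAs z).eigenspace (z * (1 - z)) ⊔ (fAs z).eigenspace 0 ⊔
          (fAs z).eigenspace (z ^ 2 * (1 - z))).map (fS z) =
          (fAs z).eigenspace (z * (1 - z)) ⊔ (fAs z).eigenspace 0 ⊔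
          (fAs z).eigenspace (z ^ 2 * (1 - z)) := by
        refine map_eq_of (fS_surj h0) fun v => ?_
        rw [ftopAs h0 h1]; simp
      simpa using this

omit h0 h1 in
theorem f_chain : fS z ![0, 1, 0, 0] ≠ ![0, 1, 0, 0] ∧
    fS z (fS z ![0, 1, 0, 0] - ![0, 1, 0, 0]) = fS z ![0, 1, 0, 0] - ![0, 1, 0, 0] := by
  constructor
  · rw [Ne, vec4_ext]; simp [fS_apply]
  · rw [vec4_ext]; simp [fS_apply]; ring

end Pool.Agent.Lib.MP_6ebba1_al
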