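import Pool.Agent.Lib.MP_6ebba1_al.Eig

/-!
Structure of a flag raised by a diagonalizable map and opposite to both of its eigenspace flags.
-/

namespace Pool.Agent.Lib.MP_6ebba1_al

open Module Polynomial Finset

variable {K V : Type*} [Field K] [AddCommGroup V] [Module K V]

/-- A flag `F` raised by `A` and opposite to the two flags of eigenspaces of `A`. -/
structure OppFlag (A : End K V) (d : ℕ) (θ : ℕ → K) (F : ℕ → Submodule K V) : Prop where
  zero : F 0 = ⊥
  mono : Monotone F
  step : ∀ n, ∀ v ∈ F n, A v ∈ F (n + 1)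
  compl : ∀ n, IsCompl (F n) (Vint A θ n (d + 1))
  compl' : ∀ n, IsCompl (F n) (Vint A θ 0 (d + 1 - n))

/-- The split component. -/
def Uu (A : End K V) (d : ℕ) (θ : ℕ → K) (F : ℕ → Submodule K V) (i : ℕ) : Submodule K V :=
  F (i + 1) ⊓ Vint A θ i (d + 1)

/-- The primitive component. -/
def Kk (A : End K V) (d : ℕ) (θ : ℕ → K) (F : ℕ → Submodule K V) (i : ℕ) : Submodule K V :=
  F (i + 1) ⊓ Vint A θ i (d + 1 - i)

variable {A : End K V} {d : ℕ} {θ : ℕ → K} {F : ℕ → Submodule K V}

theorem OppFlag.pow_mem (O : OppFlag A d θ F) {n : ℕ} {v : V} (hv : v ∈ F n) (k : ℕ) :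
    (A ^ k) v ∈ F (n + k) := by
  induction k with
  | zero => simpa using hv
  | succ k ih =>
    rw [pow_succ', End.mul_apply]
    exact O.step _ _ ih

theorem OppFlag.aeval_mem (O : OppFlag A d θ F) {n m : ℕ} {v : V} (hv : v ∈ F (n + 1))
    {p : K[X]} (hp : p.degree < m) : aeval A p v ∈ F (n + m) := by
  by_cases h0 : p = 0
  · simp [h0]
  have h1 : p.natDegree < m := (Polynomial.natDegree_lt_iff_degree_lt h0).2 hp
  rw [Polynomial.aeval_eq_sum_range' h1, LinearMap.sum_apply]
  refine Submodule.sum_mem _ fun k hk => ?_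
  rw [LinearMap.smul_apply]
  refine Submodule.smul_mem _ _ (O.mono ?_ (O.pow_mem hv k))
  have := Finset.mem_range.1 hk
  omega

theorem OppFlag.aeval_mem' (O : OppFlag A d θ F) {n m : ℕ} {v : V} (hv : v ∈ F (n + 1))
    {p : K[X]} (hp : p.natDegree ≤ m) : aeval A p v ∈ F (n + m + 1) :=
  O.aeval_mem hv (m := m + 1) (lt_of_le_of_lt Polynomial.degree_le_natDegree
    (by exact_mod_cast Nat.lt_succ_of_le hp))

theorem OppFlag.top (O : OppFlag A d θ F) {n : ℕ} (hn : d + 1 ≤ n) : F n = ⊤ := by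
  have h := (O.compl n).sup_eq_top
  rwa [Vint_eq_bot hn, sup_bot_eq] at h

theorem OppFlag.tau_mem_Uu (D : DiagData A d θ) (O : OppFlag A d θ F) {i j : ℕ} (hij : i ≤ j)
    {v : V} (hv : v ∈ Uu A d θ F i) : aeval A (tau θ i j) v ∈ Uu A d θ F j := by
  refine ⟨?_, D.tau_map j le_rfl hv.2⟩
  have := O.aeval_mem' hv.1 (p := tau θ i j) (natDegree_tau i j).le
  rwa [show i + (j - i) + 1 = j + 1 by omega] at this

theorem OppFlag.eq_zero_of_tau (D : DiagData A d θ) (O : OppFlag A d θ F) {i : ℕ}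
    {v : V} (hv : v ∈ F (i + 1)) (h : aeval A (tau θ i (d - i)) v = 0) : v = 0 := by
  have h1 := D.mem_Vint_of_tau (by omega) h
  have h2 : v ∈ Vint A θ 0 (d + 1 - (i + 1)) := Vint_mono (Nat.zero_le _) (by omega) h1
  exact (Submodule.mem_bot K).1 ((O.compl' (i + 1)).inf_eq_bot ▸ Submodule.mem_inf.2 ⟨hv, h2⟩)

theorem OppFlag.eq_zero_of_aeval (D : DiagData A d θ) (O : OppFlag A d θ F) {i : ℕ}
    (hi : 2 * i ≤ d) {v : V} (hv : v ∈ Uu A d θ F i) {q : K[X]} (hq0 : q ≠ 0)
    (hq : q.natDegree = d - 2 * i) (h : aeval A q v ∈ F (d - i)) : v = 0 := by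
  have hc : q.leadingCoeff ≠ 0 := Polynomial.leadingCoeff_ne_zero.2 hq0
  have hdeg : (q - C q.leadingCoeff * tau θ i (d - i)).degree < (d - 2 * i : ℕ) := by
    have h1 : (C q.leadingCoeff * tau θ i (d - i)).degree = q.degree := by
      rw [Polynomial.degree_C_mul hc, Polynomial.degree_eq_natDegree hq0,
        Polynomial.degree_eq_natDegree (monic_tau i (d - i)).ne_zero, natDegree_tau, hq]
      congr 1
      omega
    have h2 := Polynomial.degree_sub_lt_left h1.symm hq0 (by
      rw [Polynomial.leadingCoeff_mul, (monic_tau i (d - i)).leadingCoeff]; simp)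
    rwa [Polynomial.degree_eq_natDegree hq0, hq] at h2
  have h3 := O.aeval_mem hv.1 hdeg
  rw [show i + (d - 2 * i) = d - i by omega, map_sub, LinearMap.sub_apply, map_mul, aeval_C,
    End.mul_apply, Module.algebraMap_end_apply] at h3
  have h4 : q.leadingCoeff • aeval A (tau θ i (d - i)) v ∈ F (d - i) := by
    have := Submodule.sub_mem _ h h3
    rwa [sub_sub_cancel] at this
  rw [Submodule.smul_mem_iff _ hc] at h4
  have h5 := D.tau_map (d - i) le_rfl hv.2
  refine O.eq_zero_of_tau D hv.1 ?_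
  exact (Submodule.mem_bot K).1 ((O.compl (d - i)).inf_eq_bot ▸ Submodule.mem_inf.2 ⟨h4, h5⟩)

theorem OppFlag.succ_le (O : OppFlag A d θ F) (j : ℕ) : F (j + 1) ≤ F j ⊔ Uu A d θ F j := by
  have h := sup_inf_assoc_of_le (Vint A θ j (d + 1)) (O.mono (Nat.le_succ j))
  rw [(O.compl j).sup_eq_top, top_inf_eq, inf_comm] at h
  exact h.le

theorem OppFlag.independent (D : DiagData A d θ) (O : OppFlag A d θ F) {h : ℕ} (hh : h ≤ d)
    (v : ℕ → V) (hv : ∀ i, v i ∈ Kk A d θ F i)
    (hs : ∑ i ∈ Finset.range (min h (d - h) + 1), Ep A θ d h (v i) = 0) :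
    ∀ i ≤ min h (d - h), v i = 0 := by
  have hinj : ∀ i, Set.InjOn θ (Finset.Ico i (d + 1 - i) : Set ℕ) := fun i =>
    D.inj.mono (by intro x hx; simp at hx ⊢; omega)
  have hdeg : ∀ i ≤ min h (d - h),
      (Lagrange.basis (Finset.Ico i (d + 1 - i)) θ h).natDegree = d - 2 * i := by
    intro i hi
    rw [Lagrange.natDegree_basis (hinj i) (Finset.mem_Ico.2 (by omega)), Nat.card_Ico]
    omega
  have hE : ∀ i ≤ min h (d - h), Ep A θ d h (v i) =
      aeval A (Lagrange.basis (Finset.Ico i (d + 1 - i)) θ h) (v i) := fun i hi =>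
    D.Ep_eq_basis (by omega) (by omega) (by omega) (hv i).2
  intro i
  induction i using Nat.strong_induction_on with
  | _ i ih =>
    intro hi
    have hi' : i ∈ Finset.range (min h (d - h) + 1) := Finset.mem_range_succ_iff.2 hi
    rw [← Finset.add_sum_erase _ _ hi'] at hs
    have h1 : Ep A θ d h (v i) ∈ F (d - i) := by
      rw [eq_neg_of_add_eq_zero_left hs]
      refine Submodule.neg_mem _ (Submodule.sum_mem _ fun k hk => ?_)
      rw [Finset.mem_erase, Finset.mem_range_succ_iff] at hk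
      rcases lt_or_gt_of_ne hk.1 with hlt | hgt
      · rw [ih k hlt hk.2, map_zero]; exact Submodule.zero_mem _
      · rw [hE k hk.2]
        refine O.mono ?_ (O.aeval_mem' (hv k).1 (hdeg k hk.2).le)
        omega
    rw [hE i hi] at h1
    exact O.eq_zero_of_aeval D (by omega) ⟨(hv i).1, Vint_mono le_rfl (by omega) (hv i).2⟩
      (Lagrange.basis_ne_zero (hinj i) (Finset.mem_Ico.2 (by omega))) (hdeg i hi) h1

theorem OppFlag.exists_extension (D : DiagData A d θ) (O : OppFlag A d θ F)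
    (σ : ℕ → End K V) (hσ : ∀ i, ∀ v ∈ Kk A d θ F i, σ i v ∈ Vint A θ i (d + 1 - i)) :
    ∃ S : End K V, S * A = A * S ∧ ∀ i, ∀ v ∈ Kk A d θ F i, S v = σ i v := by
  classical
  have key : ∀ h, h ≤ d → ∃ T : End K V, ∀ i ≤ min h (d - h), ∀ v ∈ Kk A d θ F i,
      T (Ep A θ d h v) = σ i v := by
    intro h hh
    let N : Fin (min h (d - h) + 1) → Type _ := fun i => Kk A d θ F i
    let Φ : (∀ i, N i) →ₗ[K] V :=
      LinearMap.lsum K N K (fun i => Ep A θ d h ∘ₗ (Kk A d θ F i).subtype)
    let Ψ : (∀ i, N i) →ₗ[K] V :=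
      LinearMap.lsum K N K (fun i => σ i ∘ₗ (Kk A d θ F i).subtype)
    have hΦ : LinearMap.ker Φ = ⊥ := by
      rw [eq_bot_iff]
      intro w hw
      let v : ℕ → V := fun i => if hi : i < min h (d - h) + 1 then (w ⟨i, hi⟩).1 else 0
      have hv : ∀ i, v i ∈ Kk A d θ F i := by
        intro i
        simp only [v]
        split_ifs with hi
        · exact (w ⟨i, hi⟩).2
        · exact Submodule.zero_mem _
      have hs : ∑ i ∈ Finset.range (min h (d - h) + 1), Ep A θ d h (v i) = 0 := by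
        rw [Finset.sum_range, ← LinearMap.mem_ker.1 hw]
        simp only [Φ, LinearMap.lsum_apply, LinearMap.coe_sum, Finset.sum_apply]
        refine Finset.sum_congr rfl fun i _ => ?_
        simp only [v, dif_pos i.2]
        rfl
      have h0 := O.independent D hh v hv hs
      rw [Submodule.mem_bot]
      funext i
      have := h0 i (Nat.lt_succ_iff.1 i.2)
      simp only [v, dif_pos i.2] at this
      exact Subtype.ext this
    obtain ⟨L, hL⟩ := LinearMap.exists_leftInverse_of_injective Φ hΦ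
    refine ⟨Ψ ∘ₗ L, fun i hi v hv => ?_⟩
    let i' : Fin (min h (d - h) + 1) := ⟨i, Nat.lt_succ_of_le hi⟩
    have h1 : Φ (Pi.single i' ⟨v, hv⟩) = Ep A θ d h v := by
      simp only [Φ]
      rw [LinearMap.lsum_piSingle]
      rfl
    have h2 : Ψ (Pi.single i' ⟨v, hv⟩) = σ i v := by
      simp only [Ψ]
      rw [LinearMap.lsum_piSingle]
      rfl
    rw [← h1, ← h2, LinearMap.comp_apply]
    congr 1
    exact LinearMap.congr_fun hL _
  choose! T hT using key
  refine ⟨∑ h ∈ Finset.range (d + 1), Ep A θ d h * T h * Ep A θ d h, ?_, ?_⟩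
  · ext v
    simp only [End.mul_apply, LinearMap.sum_apply, map_sum]
    refine Finset.sum_congr rfl fun h hh => ?_
    have hh' := Finset.mem_range_succ_iff.1 hh
    rw [D.Ep_A hh', map_smul, map_smul, End.mem_eigenspace_iff.1 (D.Ep_mem hh' _)]
  · intro i v hv
    rw [← D.sum_Ep (σ i v)]
    simp only [End.mul_apply, LinearMap.sum_apply]
    refine Finset.sum_congr rfl fun h hh => ?_
    have hh' := Finset.mem_range_succ_iff.1 hh
    by_cases hi : i ≤ min h (d - h)
    · rw [hT h hh' i hi v hv]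
    · rw [(D.mem_Vint (by omega) _).1 hv.2 h hh' (by omega),
        (D.mem_Vint (by omega) _).1 (hσ i v hv) h hh' (by omega), map_zero, map_zero]

variable [FiniteDimensional K V]

theorem OppFlag.finrank_add (O : OppFlag A d θ F) (n : ℕ) :
    finrank K (F n) + finrank K (Vint A θ n (d + 1)) = finrank K V :=
  Submodule.finrank_add_eq_of_isCompl (O.compl n)

theorem OppFlag.finrank_add' (O : OppFlag A d θ F) (n : ℕ) :
    finrank K (F n) + finrank K (Vint A θ 0 (d + 1 - n)) = finrank K V :=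
  Submodule.finrank_add_eq_of_isCompl (O.compl' n)

theorem OppFlag.finrank_Uu (D : DiagData A d θ) (O : OppFlag A d θ F) {n : ℕ} (hn : n ≤ d) :
    finrank K (Uu A d θ F n) = finrank K (A.eigenspace (θ n)) := by
  have h1 := Submodule.finrank_sup_add_finrank_inf_eq (F (n + 1)) (Vint A θ n (d + 1))
  have h2 : F (n + 1) ⊔ Vint A θ n (d + 1) = ⊤ := by
    rw [eq_top_iff, ← (O.compl (n + 1)).sup_eq_top]
    exact sup_le_sup_left (Vint_mono (Nat.le_succ n) le_rfl) _
  have h3 := O.finrank_add (n + 1)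
  have h4 := D.finrank_Vint_add (Nat.le_succ n) (Nat.succ_le_succ hn) le_rfl
  rw [Vint_single] at h4
  rw [h2, finrank_top] at h1
  unfold Uu
  simp only [Nat.succ_eq_add_one] at h4
  omega

theorem OppFlag.finrank_symm (D : DiagData A d θ) (O : OppFlag A d θ F) {n : ℕ} (hn : n ≤ d) :
    finrank K (A.eigenspace (θ (d - n))) = finrank K (A.eigenspace (θ n)) := by
  have h1 := O.finrank_add n
  have h2 := O.finrank_add (n + 1)
  have h3 := O.finrank_add' n
  have h4 := O.finrank_add' (n + 1)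
  have h5 := D.finrank_Vint_add (Nat.le_succ n) (Nat.succ_le_succ hn) le_rfl
  have h6 := D.finrank_Vint_add (Nat.zero_le (d - n)) (Nat.le_succ (d - n)) (by omega)
  rw [Vint_single] at h5 h6
  rw [show d + 1 - n = d - n + 1 by omega] at h3
  rw [show d + 1 - (n + 1) = d - n by omega] at h4
  simp only [Nat.succ_eq_add_one] at h5 h6
  omega

theorem OppFlag.tau_surj (D : DiagData A d θ) (O : OppFlag A d θ F) {i : ℕ} (hi : 2 * i ≤ d)
    {u : V} (hu : u ∈ Uu A d θ F (d - i)) :
    ∃ u' ∈ Uu A d θ F i, aeval A (tau θ i (d - i)) u' = u := by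
  let R : Uu A d θ F i →ₗ[K] Uu A d θ F (d - i) :=
    (aeval A (tau θ i (d - i)) : End K V).restrict fun x hx => O.tau_mem_Uu D (by omega) hx
  have hinj : Function.Injective R := by
    rw [← LinearMap.ker_eq_bot, eq_bot_iff]
    intro x hx
    have h1 : aeval A (tau θ i (d - i)) x.1 = 0 := congrArg Subtype.val (LinearMap.mem_ker.1 hx)
    exact Subtype.ext (O.eq_zero_of_tau D x.2.1 h1)
  have hdim : finrank K (Uu A d θ F i) = finrank K (Uu A d θ F (d - i)) := by
    rw [O.finrank_Uu D (by omega), O.finrank_Uu D (by omega), O.finrank_symm D (by omega)]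
  obtain ⟨x, hx⟩ := (LinearMap.injective_iff_surjective_of_finrank_eq_finrank hdim).1 hinj ⟨u, hu⟩
  exact ⟨x.1, x.2, congrArg Subtype.val hx⟩

theorem OppFlag.recursion (D : DiagData A d θ) (O : OppFlag A d θ F) (j : ℕ) :
    F (j + 1) ≤ F j ⊔ (F j).map A ⊔ Kk A d θ F j := by
  refine (O.succ_le j).trans (sup_le (le_sup_of_le_left le_sup_left) ?_)
  intro u hu
  have hsub : ∀ w ∈ F j, ∀ c : K, A w - c • w ∈ F j ⊔ (F j).map A := fun w hw c =>
    Submodule.sub_mem _ (Submodule.mem_sup_right (Submodule.mem_map_of_mem hw))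
      (Submodule.mem_sup_left (Submodule.smul_mem _ _ hw))
  rcases Nat.eq_zero_or_pos j with rfl | hj
  · exact Submodule.mem_sup_right hu
  obtain ⟨i, rfl⟩ : ∃ i, j = i + 1 := ⟨j - 1, by omega⟩
  by_cases h1 : 2 * i < d
  · obtain ⟨u', hu', he⟩ := O.tau_surj D h1.le
      (O.tau_mem_Uu D (show i + 1 ≤ d - i by omega) hu)
    rw [aeval_tau_succ_bot (by omega)] at he
    have h2 : u - (A u' - θ i • u') ∈ Kk A d θ F (i + 1) := by
      refine ⟨Submodule.sub_mem _ hu.1 (Submodule.sub_mem _ (O.step _ _ hu'.1)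
        (Submodule.smul_mem _ _ (O.mono (Nat.le_succ _) hu'.1))), ?_⟩
      rw [show d + 1 - (i + 1) = d - i by omega]
      apply D.mem_Vint_of_tau (by omega)
      rw [map_sub, he, sub_self]
    have h3 := Submodule.add_mem _ (Submodule.mem_sup_left (hsub u' hu'.1 (θ i)))
      (Submodule.mem_sup_right h2)
    rwa [add_sub_cancel] at h3
  · by_cases h2 : i + 1 ≤ d
    · have h3 : d - (d - (i + 1)) = i + 1 := by omega
      obtain ⟨u', hu', he⟩ := O.tau_surj D (i := d - (i + 1)) (by omega) (h3.symm ▸ hu)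
      rw [h3, aeval_tau_succ_top (by omega)] at he
      rw [← he]
      exact Submodule.mem_sup_left
        (hsub _ (O.tau_mem_Uu D (show d - (i + 1) ≤ i by omega) hu').1 _)
    · have h3 := hu.2
      rw [Vint_eq_bot (by omega)] at h3
      rw [(Submodule.mem_bot K).1 h3]
      exact Submodule.zero_mem _

theorem OppFlag.finrank_Kk (D : DiagData A d θ) (O : OppFlag A d θ F) {i : ℕ}
    (hi : 2 * (i + 1) ≤ d) :
    finrank K (Kk A d θ F (i + 1)) + finrank K (A.eigenspace (θ i)) =
      finrank K (A.eigenspace (θ (i + 1))) := by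
  let R : Uu A d θ F (i + 1) →ₗ[K] Uu A d θ F (d - i) :=
    (aeval A (tau θ (i + 1) (d - i)) : End K V).restrict
      fun x hx => O.tau_mem_Uu D (by omega) hx
  have hsurj : LinearMap.range R = ⊤ := by
    rw [eq_top_iff]
    rintro ⟨u, hu⟩ -
    obtain ⟨u', hu', he⟩ := O.tau_surj D (by omega) hu
    rw [aeval_tau_succ_bot (by omega)] at he
    refine ⟨⟨A u' - θ i • u', Submodule.sub_mem _ (O.step _ _ hu'.1)
      (Submodule.smul_mem _ _ (O.mono (Nat.le_succ _) hu'.1)), D.lower le_rfl hu'.2⟩,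
      Subtype.ext he⟩
  have hle : Kk A d θ F (i + 1) ≤ Uu A d θ F (i + 1) :=
    inf_le_inf_left _ (Vint_mono le_rfl (by omega))
  have hker : LinearMap.ker R = (Kk A d θ F (i + 1)).comap (Uu A d θ F (i + 1)).subtype := by
    ext x
    rw [LinearMap.mem_ker, Submodule.mem_comap]
    constructor
    · intro hx
      refine ⟨x.2.1, ?_⟩
      rw [show d + 1 - (i + 1) = d - i by omega]
      exact D.mem_Vint_of_tau (by omega) (congrArg Subtype.val hx)
    · intro hx
      apply Subtype.ext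
      have h1 := hx.2
      rw [show d + 1 - (i + 1) = d - i by omega] at h1
      have h2 := D.tau_map (d - i) (by omega) h1
      rw [Vint_eq_bot le_rfl] at h2
      exact h2
  have h := LinearMap.finrank_range_add_finrank_ker R
  rw [hsurj, finrank_top, hker, (Submodule.comapSubtypeEquivOfLe hle).finrank_eq,
    O.finrank_Uu D (by omega), O.finrank_Uu D (by omega), O.finrank_symm D (by omega)] at h
  omega

theorem OppFlag.finrank_Kk_zero (D : DiagData A d θ) (O : OppFlag A d θ F) :
    finrank K (Kk A d θ F 0) = finrank K (A.eigenspace (θ 0)) :=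
  O.finrank_Uu D (Nat.zero_le d)

theorem OppFlag.eq_top_of_invariant (D : DiagData A d θ) (O : OppFlag A d θ F)
    {W : Submodule K V} (hA : ∀ v ∈ W, A v ∈ W) (hK : ∀ i ≤ d, Kk A d θ F i ≤ W) : W = ⊤ := by
  have key : ∀ n ≤ d + 1, F n ≤ W := by
    intro n
    induction n with
    | zero => intro _; rw [O.zero]; exact bot_le
    | succ n ih =>
      intro hn
      refine (O.recursion D n).trans (sup_le (sup_le (ih (by omega)) ?_) (hK n (by omega)))
      rintro _ ⟨v, hv, rfl⟩
      exact hA v (ih (by omega) hv)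
  rw [eq_top_iff, ← O.top le_rfl]
  exact key _ le_rfl

theorem OppFlag.map_eq (D : DiagData A d θ) (O : OppFlag A d θ F) {F' : ℕ → Submodule K V}
    (O' : OppFlag A d θ F') {S : End K V} (hS : S * A = A * S)
    (hK : ∀ i ≤ d, (Kk A d θ F i).map S = Kk A d θ F' i) :
    ∀ n ≤ d + 1, (F n).map S = F' n := by
  have hrec : ∀ {G : ℕ → Submodule K V}, OppFlag A d θ G → ∀ j,
      G (j + 1) = G j ⊔ (G j).map A ⊔ Kk A d θ G j := by
    intro G OG j
    refine le_antisymm (OG.recursion D j) (sup_le (sup_le (OG.mono (Nat.le_succ j)) ?_) inf_le_left)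
    rintro _ ⟨v, hv, rfl⟩
    exact OG.step _ _ hv
  intro n
  induction n with
  | zero => intro _; rw [O.zero, O'.zero, Submodule.map_bot]
  | succ n ih =>
    intro hn
    rw [hrec O n, hrec O' n, Submodule.map_sup, Submodule.map_sup, hK n (by omega),
      ← ih (by omega), ← Submodule.map_comp, ← Submodule.map_comp]
    congr 3

end Pool.Agent.Lib.MP_6ebba1_al
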