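import Pool.Agent.Lib.MP_6ebba1_al.Defs

/-!
The two families of subspaces that parametrise the admissible maps.
-/

namespace Pool.Agent.Lib.MP_6ebba1_al

open Module

variable {K V : Type*} [Field K] [AddCommGroup V] [Module K V]

/-- `K i = (V* 0 + ⋯ + V* i) ∩ (V i + ⋯ + V (d - i))`; it is zero for `i > d / 2`. -/
def primDown {d : ℕ} (A As : End K V) (θ θs : Fin (d + 1) → K) (i : Fin (d + 1)) :
    Submodule K V :=
  eigSum As θs 0 ((i : ℕ) : ℤ) ⊓ eigSum A θ ((i : ℕ) : ℤ) ((d : ℤ) - ((i : ℕ) : ℤ))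

/-- `K' i = (V* (d - i) + ⋯ + V* d) ∩ (V i + ⋯ + V (d - i))`; it is zero for `i > d / 2`. -/
def primUp {d : ℕ} (A As : End K V) (θ θs : Fin (d + 1) → K) (i : Fin (d + 1)) :
    Submodule K V :=
  eigSum As θs ((d : ℤ) - ((i : ℕ) : ℤ)) (d : ℤ) ⊓
    eigSum A θ ((i : ℕ) : ℤ) ((d : ℤ) - ((i : ℕ) : ℤ))

end Pool.Agent.Lib.MP_6ebba1_al
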