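import Pool.Agent.Lib.MP_6ebba1_al.Family

/-!
A tridiagonal pair of shape (2,2) over a field in which `x ^ 2 - x - 1` has no root, with an
admissible map that has a Jordan block.
-/

namespace Pool.Agent.Lib.MP_6ebba1_al

open Module

variable (K : Type*) [Field K]

/-- The first map of the pair. -/
def gA : End K (Fin 4 → K) where
  toFun v := ![0, 0, v 2, v 3]
  map_add' v w := by rw [vec4_ext]; simp
  map_smul' c v := by rw [vec4_ext]; simp

/-- The second map of the pair. -/
def gAs : End K (Fin 4 → K) where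
  toFun v := ![v 3 - v 1, v 2 - v 0 + v 3 - v 1, v 2 - v 0 + v 3 - v 1,
    v 2 - v 0 + 2 * (v 3 - v 1)]
  map_add' v w := by rw [vec4_ext]; refine ⟨?_, ?_, ?_, ?_⟩ <;> simp <;> ring
  map_smul' c v := by rw [vec4_ext]; refine ⟨?_, ?_, ?_, ?_⟩ <;> simp <;> ring

/-- The admissible map. -/
def gS : End K (Fin 4 → K) where
  toFun v := ![v 0 + v 1, v 1, v 3, v 2 + 2 * v 3]
  map_add' v w := by rw [vec4_ext]; refine ⟨?_, ?_, ?_, ?_⟩ <;> simp <;> ring
  map_smul' c v := by rw [vec4_ext]; refine ⟨?_, ?_, ?_, ?_⟩ <;> simp <;> ring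

variable {K}

theorem gA_apply (v : Fin 4 → K) : gA K v = ![0, 0, v 2, v 3] := rfl
theorem gAs_apply (v : Fin 4 → K) : gAs K v = ![v 3 - v 1, v 2 - v 0 + v 3 - v 1,
    v 2 - v 0 + v 3 - v 1, v 2 - v 0 + 2 * (v 3 - v 1)] := rfl
theorem gS_apply (v : Fin 4 → K) : gS K v = ![v 0 + v 1, v 1, v 3, v 2 + 2 * v 3] := rfl

theorem eigSum_two {V : Type*} [AddCommGroup V] [Module K V] (A : End K V) (θ : Fin 2 → K)
    (a b : ℤ) : eigSum (d := 1) A θ a b =
      (if a ≤ 0 ∧ 0 ≤ b then A.eigenspace (θ 0) else ⊥) ⊔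
      (if a ≤ 1 ∧ 1 ≤ b then A.eigenspace (θ 1) else ⊥) := by
  unfold eigSum
  simp only [iSup_eq_if]
  apply le_antisymm
  · apply iSup_le
    intro j
    fin_cases j
    · exact le_sup_of_le_left le_rfl
    · exact le_sup_of_le_right le_rfl
  · exact sup_le (le_iSup_of_le 0 le_rfl) (le_iSup_of_le 1 le_rfl)

/-- Idempotents with nonzero kernel and image. -/
theorem idem_top {V : Type*} [AddCommGroup V] [Module K V] {A : End K V}
    (h : ∀ v, A (A v) = A v) : A.eigenspace 0 ⊔ A.eigenspace 1 = ⊤ := by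
  rw [eq_top_iff]
  intro v _
  refine Submodule.mem_sup.2 ⟨v - A v, End.mem_eigenspace_iff.2 ?_, A v,
    End.mem_eigenspace_iff.2 ?_, by simp⟩
  · rw [map_sub, h, sub_self, zero_smul]
  · rw [h, one_smul]

theorem idem_ordering {V : Type*} [AddCommGroup V] [Module K V] {A : End K V}
    (h : ∀ v, A (A v) = A v) {x y : V} (hx : A x = 0) (hx0 : x ≠ 0) (hy : A y = y) (hy0 : y ≠ 0) :
    IsEigenOrdering (d := 1) A ![0, 1] := by
  refine ⟨?_, fun μ => ?_⟩
  · intro i j h
    fin_cases i <;> fin_cases j <;> simp at h ⊢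
  · rw [End.hasEigenvalue_iff, Submodule.ne_bot_iff]
    constructor
    · rintro ⟨v, hv, hv0⟩
      have h1 := End.mem_eigenspace_iff.1 hv
      have h2 := h v
      rw [h1, map_smul, h1, smul_smul, ← sub_eq_zero, ← sub_smul] at h2
      have h3 : μ * (μ - 1) = 0 := by
        linear_combination (smul_eq_zero.1 h2).resolve_right hv0
      rcases mul_eq_zero.1 h3 with h4 | h4
      · exact ⟨0, h4.symm⟩
      · exact ⟨1, (sub_eq_zero.1 h4).symm⟩
    · rintro ⟨i, rfl⟩
      fin_cases i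
      · exact ⟨x, End.mem_eigenspace_iff.2 (by simpa using hx), hx0⟩
      · exact ⟨y, End.mem_eigenspace_iff.2 (by simpa using hy), hy0⟩

theorem gA_idem (v : Fin 4 → K) : gA K (gA K v) = gA K v := by
  rw [vec4_ext]; simp [gA_apply]

theorem gAs_idem (v : Fin 4 → K) : gAs K (gAs K v) = gAs K v := by
  rw [vec4_ext]; refine ⟨?_, ?_, ?_, ?_⟩ <;> simp only [gAs_apply, Matrix.cons_val] <;> ring

theorem g_irreducible (hK : ∀ x : K, x ^ 2 - x - 1 ≠ 0) (W : Submodule K (Fin 4 → K))
    (hA : W.map (gA K) ≤ W) (hAs : W.map (gAs K) ≤ W) : W = ⊥ ∨ W = ⊤ := by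
  have hA' : ∀ v ∈ W, gA K v ∈ W := fun v hv => hA (Submodule.mem_map_of_mem hv)
  have hAs' : ∀ v ∈ W, gAs K v ∈ W := fun v hv => hAs (Submodule.mem_map_of_mem hv)
  have pr : ∀ v ∈ W, (![v 0, v 1, 0, 0] : Fin 4 → K) ∈ W := fun v hv => by
    convert W.sub_mem hv (hA' v hv) using 1
    rw [vec4_ext]; simp [gA_apply]
  have key : ∀ a b : K, (![a, b, 0, 0] : Fin 4 → K) ∈ W → a ≠ 0 ∨ b ≠ 0 → W = ⊤ := by
    intro a b h hab
    have hd : a ^ 2 + a * b - b ^ 2 ≠ 0 := by
      intro hd
      by_cases ha : a = 0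
      · rw [ha] at hd
        have : b ^ 2 = 0 := by linear_combination -hd
        exact hab.elim (fun h => h ha) fun h => h (pow_eq_zero_iff two_ne_zero |>.1 this)
      · apply hK (b / a)
        field_simp
        linear_combination -hd
    have h2 := pr _ (hAs' _ h)
    have all : ∀ x y : K, (![x, y, 0, 0] : Fin 4 → K) ∈ W := by
      intro x y
      refine (W.smul_mem_iff hd).1 ?_
      convert W.add_mem (W.smul_mem (x * (a + b) - y * b) h) (W.smul_mem (x * b - y * a) h2) using 1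
      rw [vec4_ext]; refine ⟨?_, ?_, ?_, ?_⟩ <;> simp [gAs_apply] <;> ring
    rw [eq_top_iff]
    intro v _
    convert W.add_mem (all (v 0) (v 1)) (hA' _ (hAs' _ (all (v 3 - 2 * v 2) (v 2 - v 3)))) using 1
    rw [vec4_ext]; refine ⟨?_, ?_, ?_, ?_⟩ <;> simp [gAs_apply, gA_apply] <;> ring
  by_cases hW : W = ⊤
  · exact Or.inr hW
  · left
    rw [eq_bot_iff]
    intro v hv
    have a1 := mt (key _ _ (pr v hv)) hW
    have a2 := mt (key _ _ (pr _ (hAs' v hv))) hW
    simp only [gAs_apply, Matrix.cons_val, not_or, not_not] at a1 a2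
    rw [Submodule.mem_bot, vec4_ext]
    simp only [Pi.zero_apply]
    grind

theorem g_isTridiagonalPair (hK : ∀ x : K, x ^ 2 - x - 1 ≠ 0) :
    IsTridiagonalPair (d := 1) (gA K) (gAs K) ![0, 1] ![0, 1] where
  diag := by
    unfold IsDiagonalizable
    rw [eq_top_iff, ← idem_top gA_idem]
    exact sup_le (le_iSup _ 0) (le_iSup _ 1)
  diag_star := by
    unfold IsDiagonalizable
    rw [eq_top_iff, ← idem_top gAs_idem]
    exact sup_le (le_iSup _ 0) (le_iSup _ 1)
  ordering := idem_ordering gA_idem (x := ![1, 0, 0, 0]) (y := ![0, 0, 1, 0])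
    (by rw [vec4_ext]; simp [gA_apply]) (by simp) (by rw [vec4_ext]; simp [gA_apply]) (by simp)
  ordering_star := idem_ordering gAs_idem (x := ![1, 0, 1, 0]) (y := ![1, 0, 0, 1])
    (by rw [vec4_ext]; simp [gAs_apply]) (by simp)
    (by rw [vec4_ext]; simp [gAs_apply]; norm_num) (by simp)
  tri := by
    intro i
    rw [eigSum_two]
    have := idem_top (A := gA K) gA_idem
    fin_cases i <;> exact le_top.trans (by simpa using this)
  tri_star := by
    intro i
    rw [eigSum_two]
    have := idem_top (A := gAs K) gAs_idem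
    fin_cases i <;> exact le_top.trans (by simpa using this)
  irreducible := g_irreducible hK

theorem gS_surj : Function.Surjective (gS K) := fun w =>
  ⟨![w 0 - w 1, w 1, w 3 - 2 * w 2, w 2], by rw [gS_apply, vec4_ext]; simp⟩

theorem g_isAdmissible : IsAdmissible (d := 1) (gA K) (gAs K) ![0, 1] ![0, 1] (gS K) := by
  intro i
  rw [eigSum_two, eigSum_two]
  fin_cases i
  · refine ⟨map_eq_of gS_surj fun v => ?_, ?_⟩
    · change v ∈ (gA K).eigenspace 0 ↔ _ ∈ (gA K).eigenspace 0
      simp only [End.mem_eigenspace_iff, gA_apply, gS_apply, vec4_ext, zero_smul, Matrix.cons_val,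
        Pi.zero_apply]
      constructor <;> intro h <;> grind
    · have : ((gAs K).eigenspace 0).map (gS K) = (gAs K).eigenspace 1 := by
        refine map_eq_of gS_surj fun v => ?_
        simp only [End.mem_eigenspace_iff, gAs_apply, gS_apply, vec4_ext, zero_smul, one_smul,
          Matrix.cons_val, Pi.zero_apply]
        constructor <;> intro h <;> grind
      simpa using this
  · refine ⟨map_eq_of gS_surj fun v => ?_, ?_⟩
    · change v ∈ (gA K).eigenspace 1 ↔ _ ∈ (gA K).eigenspace 1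
      simp only [End.mem_eigenspace_iff, gA_apply, gS_apply, vec4_ext, one_smul, Matrix.cons_val]
      constructor <;> intro h <;> grind
    · have : ((gAs K).eigenspace 0 ⊔ (gAs K).eigenspace 1).map (gS K) =
          (gAs K).eigenspace 0 ⊔ (gAs K).eigenspace 1 := by
        refine map_eq_of gS_surj fun v => ?_
        rw [idem_top gAs_idem]; simp
      simpa using this

theorem g_chain : gS K ![0, 1, 0, 0] ≠ ![0, 1, 0, 0] ∧
    gS K (gS K ![0, 1, 0, 0] - ![0, 1, 0, 0]) = gS K ![0, 1, 0, 0] - ![0, 1, 0, 0] := by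
  constructor
  · rw [Ne, vec4_ext]; simp [gS_apply]
  · rw [vec4_ext]; simp [gS_apply]

end Pool.Agent.Lib.MP_6ebba1_al
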