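import Pool.Agent.Lib.MP_6ebba1_al.Defs
import Pool.Agent.Lib.MP_6ebba1_al.Primitive
import Pool.Agent.Lib.MP_6ebba1_al.Flag

/-!
The flags of a tridiagonal pair are mutually opposite (Ito, Tanabe, Terwilliger), and the
description of all admissible maps.
-/

namespace Pool.Agent.Lib.MP_6ebba1_al

open Module Polynomial Finset

variable {K V : Type*} [Field K] [AddCommGroup V] [Module K V]

/-- An ascending flag, raised by `A` and lowered by `As` up to scalars. -/
structure AscFlag (A As : End K V) (F : ℕ → Submodule K V) : Prop where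
  zero : F 0 = ⊥
  mono : Monotone F
  step : ∀ n, ∀ v ∈ F n, A v ∈ F (n + 1)
  low : ∀ n, ∃ c : K, ∀ v ∈ F (n + 1), As v - c • v ∈ F n
  ne : F 1 ≠ ⊥

/-- A descending flag. -/
structure DescFlag (A As : End K V) (G : ℕ → Submodule K V) : Prop where
  anti : Antitone G
  zero : G 0 = ⊤
  step : ∀ n, ∀ v ∈ G (n + 1), As v ∈ G n
  low : ∀ n, ∃ c : K, ∀ v ∈ G n, A v - c • v ∈ G (n + 1)
  ne : G 1 ≠ ⊤

theorem isCompl_of_flags {A As : End K V} {F G : ℕ → Submodule K V} (hF : AscFlag A As F)
    (hG : DescFlag A As G)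
    (hirr : ∀ W : Submodule K V, W.map A ≤ W → W.map As ≤ W → W = ⊥ ∨ W = ⊤) (n : ℕ) :
    IsCompl (F n) (G n) := by
  have hW : ∀ r : ℕ, (⨆ i, F (i + 1) ⊓ G (i + r)) = ⊥ ∨ (⨆ i, F (i + 1) ⊓ G (i + r)) = ⊤ := by
    intro r
    apply hirr
    · rw [Submodule.map_iSup]
      refine iSup_le fun i => ?_
      rintro _ ⟨v, hv, rfl⟩
      obtain ⟨c, hc⟩ := hG.low (i + r)
      have h1 : A v - c • v ∈ F (i + 1 + 1) ⊓ G (i + 1 + r) :=
        ⟨Submodule.sub_mem _ (hF.step _ _ hv.1)
          (Submodule.smul_mem _ _ (hF.mono (Nat.le_succ _) hv.1)), by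
          rw [show i + 1 + r = i + r + 1 by omega]; exact hc v hv.2⟩
      have h2 := Submodule.add_mem _
        (Submodule.mem_iSup_of_mem (p := fun i => F (i + 1) ⊓ G (i + r)) (i + 1) h1)
        (Submodule.smul_mem _ c
          (Submodule.mem_iSup_of_mem (p := fun i => F (i + 1) ⊓ G (i + r)) i hv))
      rwa [sub_add_cancel] at h2
    · rw [Submodule.map_iSup]
      refine iSup_le fun i => ?_
      rintro _ ⟨v, hv, rfl⟩
      obtain ⟨c, hc⟩ := hF.low i
      have h1 : As v - c • v ∈ ⨆ i, F (i + 1) ⊓ G (i + r) := by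
        rcases i with _ | i
        · have h3 := hc v hv.1
          rw [hF.zero, Submodule.mem_bot] at h3
          rw [h3]; exact Submodule.zero_mem _
        · have h4 : v ∈ G (i + r + 1) := by
            rw [show i + r + 1 = i + 1 + r by omega]; exact hv.2
          exact Submodule.mem_iSup_of_mem (p := fun i => F (i + 1) ⊓ G (i + r)) i
            ⟨hc v hv.1, Submodule.sub_mem _ (hG.step _ _ h4)
              (Submodule.smul_mem _ _ (hG.anti (Nat.le_succ _) h4))⟩
      have h2 := Submodule.add_mem _ h1 (Submodule.smul_mem _ c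
          (Submodule.mem_iSup_of_mem (p := fun i => F (i + 1) ⊓ G (i + r)) i hv))
      rwa [sub_add_cancel] at h2
  constructor
  · rcases n with _ | n
    · rw [hF.zero]; exact disjoint_bot_left
    · rcases hW 1 with h | h
      · rw [disjoint_iff, eq_bot_iff, ← h]
        exact le_iSup (fun i => F (i + 1) ⊓ G (i + 1)) n
      · exfalso
        apply hG.ne
        rw [eq_top_iff, ← h]
        exact iSup_le fun i => inf_le_right.trans (hG.anti (by omega))
  · rcases hW 0 with h | h
    · exfalso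
      apply hF.ne
      rw [eq_bot_iff, ← h]
      refine le_trans ?_ (le_iSup (fun i => F (i + 1) ⊓ G (i + 0)) 0)
      simp [hG.zero]
    · rw [codisjoint_iff, eq_top_iff, ← h]
      refine iSup_le fun i => ?_
      by_cases hi : i + 1 ≤ n
      · exact inf_le_left.trans ((hF.mono hi).trans le_sup_left)
      · exact inf_le_right.trans ((hG.anti (by omega)).trans le_sup_right)

/-- One half of the data of a tridiagonal pair, with indices in the natural numbers. -/
structure Half (B C : End K V) (d : ℕ) (η : ℕ → K) : Prop where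
  diag : DiagData B d η
  ne : ∀ g ≤ d, B.eigenspace (η g) ≠ ⊥
  tri : ∀ g ≤ d, ∀ v ∈ B.eigenspace (η g), C v ∈ Vint B η (g - 1) (min (g + 2) (d + 1))

section half

variable {B C : End K V} {d : ℕ} {η : ℕ → K}

theorem Half.map_Vint (H : Half B C d η) {a b : ℕ} (hb : b ≤ d + 1) {v : V}
    (hv : v ∈ Vint B η a b) : C v ∈ Vint B η (a - 1) (min (b + 1) (d + 1)) := by
  refine Vint_induction (P := fun v => C v ∈ Vint B η (a - 1) (min (b + 1) (d + 1))) hv ?_
    (by simp) ?_
  · intro g h1 h2 x hx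
    exact Vint_mono (by omega) (by omega) (H.tri g (by omega) x hx)
  · intro x y hx hy
    rw [map_add]; exact Submodule.add_mem _ hx hy

theorem Half.Vint_ne_top (H : Half B C d η) {a b g : ℕ} (hb : b ≤ d + 1) (hg : g ≤ d)
    (hab : ¬ (a ≤ g ∧ g < b)) : Vint B η a b ≠ ⊤ := by
  intro h
  apply H.ne g hg
  rw [eq_bot_iff]
  intro v hv
  have h1 := (H.diag.mem_Vint hb v).1 (h ▸ Submodule.mem_top) g hg hab
  rwa [H.diag.Ep_self hg hv] at h1

theorem Half.asc (H : Half B C d η) : AscFlag C B (fun n => Vint B η 0 (min n (d + 1))) where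
  zero := Vint_eq_bot (by omega)
  mono := fun _ _ h => Vint_mono le_rfl (by omega)
  step := fun n v hv => Vint_mono (by omega) (by omega) (H.map_Vint (by omega) hv)
  low := fun n => ⟨η n, fun v hv => by
    by_cases hn : n ≤ d
    · rw [show min (n + 1) (d + 1) = n + 1 by omega] at hv
      rw [show min n (d + 1) = n by omega]
      exact H.diag.upper hn hv
    · rw [show min n (d + 1) = d + 1 by omega, H.diag.Vint_top]; trivial⟩
  ne := fun h => H.ne 0 (Nat.zero_le d) (eq_bot_iff.2 (h ▸ eig_le_Vint le_rfl (by omega)))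

theorem Half.asc' (H : Half B C d η) : AscFlag C B (fun n => Vint B η (d + 1 - n) (d + 1)) where
  zero := Vint_eq_bot (by omega)
  mono := fun _ _ h => Vint_mono (by omega) le_rfl
  step := fun n v hv => Vint_mono (by omega) (by omega) (H.map_Vint le_rfl hv)
  low := fun n => ⟨η (d + 1 - (n + 1)), fun v hv => by
    by_cases hn : n ≤ d
    · exact Vint_mono (by omega) le_rfl (H.diag.lower le_rfl hv)
    · rw [show d + 1 - n = 0 by omega, H.diag.Vint_top]; trivial⟩
  ne := fun h => H.ne d le_rfl (eq_bot_iff.2 (h ▸ eig_le_Vint (by omega) (by omega)))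

theorem Half.desc (H : Half B C d η) : DescFlag B C (fun n => Vint B η n (d + 1)) where
  anti := fun _ _ h => Vint_mono h le_rfl
  zero := H.diag.Vint_top
  step := fun n v hv => Vint_mono (by omega) (by omega) (H.map_Vint le_rfl hv)
  low := fun n => ⟨η n, fun v hv => H.diag.lower le_rfl hv⟩
  ne := H.Vint_ne_top le_rfl (Nat.zero_le d) (by omega)

theorem Half.desc' (H : Half B C d η) : DescFlag B C (fun n => Vint B η 0 (d + 1 - n)) where
  anti := fun _ _ h => Vint_mono le_rfl (by omega)
  zero := H.diag.Vint_top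
  step := fun n v hv => by
    by_cases hn : n ≤ d
    · exact Vint_mono (by omega) (by omega) (H.map_Vint (by omega) hv)
    · rw [Vint_eq_bot (by omega), Submodule.mem_bot] at hv
      rw [hv, map_zero]; exact Submodule.zero_mem _
  low := fun n => ⟨η (d - n), fun v hv => by
    by_cases hn : n ≤ d
    · rw [show d + 1 - n = d - n + 1 by omega] at hv
      rw [show d + 1 - (n + 1) = d - n by omega]
      exact H.diag.upper (by omega) hv
    · rw [Vint_eq_bot (by omega), Submodule.mem_bot] at hv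
      rw [hv]; simp⟩
  ne := H.Vint_ne_top (by omega) le_rfl (by omega)

end half

theorem oppFlag_of_asc {A As : End K V} {d : ℕ} {θ : ℕ → K} {F : ℕ → Submodule K V}
    (H : Half A As d θ) (hF : AscFlag A As F)
    (hirr : ∀ W : Submodule K V, W.map A ≤ W → W.map As ≤ W → W = ⊥ ∨ W = ⊤) :
    OppFlag A d θ F where
  zero := hF.zero
  mono := hF.mono
  step := hF.step
  compl := isCompl_of_flags hF H.desc hirr
  compl' := isCompl_of_flags hF H.desc' hirr

/-- Extension of a list of eigenvalues to all natural numbers. -/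
def ext {d : ℕ} (θ : Fin (d + 1) → K) (n : ℕ) : K := if h : n < d + 1 then θ ⟨n, h⟩ else 0

theorem ext_val {d : ℕ} (θ : Fin (d + 1) → K) (i : Fin (d + 1)) : ext θ i = θ i := by
  simp [ext, i.2]

theorem eigSum_eq_Vint {d : ℕ} (A : End K V) (θ : Fin (d + 1) → K) {a b : ℤ} {x y : ℕ}
    (hy : y ≤ d + 1) (h : ∀ j : ℕ, j ≤ d → ((a ≤ j ∧ (j : ℤ) ≤ b) ↔ (x ≤ j ∧ j < y))) :
    eigSum A θ a b = Vint A (ext θ) x y := by
  apply le_antisymm
  · refine iSup₂_le fun j hj => ?_
    have := (h j (Nat.lt_succ_iff.1 j.2)).1 hj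
    rw [← ext_val θ j]
    exact eig_le_Vint this.1 this.2
  · refine iSup₂_le fun j hj => ?_
    rw [Finset.mem_Ico] at hj
    have hjd : j < d + 1 := by omega
    refine le_iSup₂_of_le (f := fun (j : Fin (d + 1))
      (_ : a ≤ ((j : ℕ) : ℤ) ∧ ((j : ℕ) : ℤ) ≤ b) => A.eigenspace (θ j)) ⟨j, hjd⟩
      ((h j (by omega)).2 hj) ?_
    rw [← ext_val θ ⟨j, hjd⟩]

theorem half_of {d : ℕ} {B C : End K V} {η : Fin (d + 1) → K} (h1 : IsDiagonalizable B)
    (h2 : IsEigenOrdering B η) (h3 : ∀ i : Fin (d + 1),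
      (B.eigenspace (η i)).map C ≤ eigSum B η (((i : ℕ) : ℤ) - 1) (((i : ℕ) : ℤ) + 1)) :
    Half B C d (ext η) where
  diag :=
    { inj := by
        intro x hx y hy hxy
        rw [Finset.coe_range, Set.mem_Iio] at hx hy
        simp only [ext, dif_pos hx, dif_pos hy] at hxy
        exact congrArg Fin.val (h2.1 hxy)
      top := by
        rw [eq_top_iff, ← h1]
        refine iSup_le fun μ => ?_
        by_cases hμ : B.HasEigenvalue μ
        · obtain ⟨i, rfl⟩ := (h2.2 μ).1 hμ
          refine le_iSup₂_of_le (f := fun g (_ : g ∈ Finset.range (d + 1)) =>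
            B.eigenspace (ext η g)) i (Finset.mem_range.2 i.2) ?_
          rw [ext_val]
        · rw [End.hasEigenvalue_iff, not_not] at hμ
          rw [hμ]; exact bot_le }
  ne := by
    intro g hg
    have := (h2.2 (η ⟨g, Nat.lt_succ_of_le hg⟩)).2 ⟨_, rfl⟩
    rw [← ext_val η ⟨g, Nat.lt_succ_of_le hg⟩] at this
    exact this
  tri := by
    intro g hg v hv
    have h := h3 ⟨g, Nat.lt_succ_of_le hg⟩
    rw [← ext_val η ⟨g, Nat.lt_succ_of_le hg⟩, eigSum_eq_Vint B η (x := g - 1) (y := min (g + 2) (d + 1)) (by omega)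
      (by intro j hj; simp only; omega)] at h
    exact h (Submodule.mem_map_of_mem hv)

end Pool.Agent.Lib.MP_6ebba1_al
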